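import Pool.Agent.Work.MP_14a437_ag.S.Shift

/-!
# G/Append  (M) : concatenation of HN filtrations

Induction on `hB`.  `B` zero: `A ≅ E` (`Triangle.isZero₃_iff_isIso₁`), `hn_iso`.
`B' → B → D`, `D ∈ P φ`: let `E''` be the fibre of `E → B → D` (`distinguished_cocone_triangle₁`);
`Triangulated.someOctahedron'` for `E ⟶ B ⟶ D` gives a triangle `A → E'' → B'`; by induction
`HN P E'' (l₂' ++ l₁)`; then `HN.cons` for `E'' → E → D`.
-/

open CategoryTheory CategoryTheory.Limits CategoryTheory.Pretriangulated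

universe v u

namespace MP_14a437_ag

variable {C : Type u} [Category.{v} C] [Preadditive C] [HasZeroObject C] [HasShift C ℤ]
  [∀ n : ℤ, (shiftFunctor C n).Additive] [Pretriangulated C] [IsTriangulated C]

theorem hn_append {P : ℝ → ObjectProperty C} {A E B : C} {l₁ l₂ : List ℝ} (f : A ⟶ E)
    (g : E ⟶ B) (h : B ⟶ A⟦(1 : ℤ)⟧) (hT : Triangle.mk f g h ∈ distTriang C)
    (hA : HN P A l₁) (hB : HN P B l₂) (hl : ∀ φ ∈ l₂, ∀ ψ ∈ l₁, φ < ψ) :
    HN P E (l₂ ++ l₁) := by
  induction hB generalizing E with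
  | @zero B hz =>
    have h1 : IsIso f := (Triangle.isZero₃_iff_isIso₁ _ hT).1 hz
    rw [List.nil_append]
    exact hn_iso hA (asIso f)
  | @cons B' B D l' φ i p q hT' hB' hD hD0 hlt ih =>
    obtain ⟨E', v, w, hE'⟩ := distinguished_cocone_triangle₁ (g ≫ p)
    have oct := Triangulated.someOctahedron' (rfl : g ≫ p = g ≫ p) hT hT' hE'
    have h1 := ih oct.m₁ oct.m₃ _ oct.mem (fun ψ hψ => hl ψ (List.mem_cons_of_mem _ hψ))
    refine HN.cons v (g ≫ p) w hE' h1 hD hD0 ?_
    intro ψ hψ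
    rcases List.mem_append.1 hψ with h2 | h2
    · exact hlt ψ h2
    · exact hl φ List.mem_cons_self ψ h2

end MP_14a437_ag
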