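import Pool.Agent.Work.MP_14a437_ag.G.Fin0

/-!
# G/Count  (M) : termination of the HN algorithm

`x ↦ x + cl A` is injective, maps `SE H W B` into `SE H W E` and misses `cl A ∈ SE H W E`:
* `cl A ∈ SE H W E`: `cr (a+b) a = cr b a > 0` where `a = W A`, `b = W B` (`cr_pos_iff`).
* `x = cl B'`, `B' → B → B''`, `B'` nonzero, `cr b (W x) ≥ 0`: `sub_preimage` gives `A'` with
  `cl A' = cl A + cl B'`, `A'` a subobject of `E`, nonzero (its `W` is in `UH`: sum of two elements), and
  `cr (a+b) (a + W x) ≥ 0` by `rect` (`Im W(B') ≤ Im W(B)`).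
* `x + cl A ≠ cl A`, since `W x ≠ 0`.
Then `Set.ncard_lt_ncard` / `Set.ncard_image_of_injective` with `SE_finite`.
-/

open CategoryTheory CategoryTheory.Limits CategoryTheory.Pretriangulated

universe v u

namespace MP_14a437_ag

variable {C : Type u} [Category.{v} C] [Preadditive C] [HasZeroObject C] [HasShift C ℤ]
  [∀ n : ℤ, (shiftFunctor C n).Additive] [Pretriangulated C] [IsTriangulated C]

theorem SE_card_lt {H : ObjectProperty C} (hH : IsAdm H) {W : K0 C →+ ℂ} (hW : IsStabFun H W)
    {A E B : C} (h : SES H A E B) (hA0 : ¬ IsZero A) (hB0 : ¬ IsZero B)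
    (harg : (W (cl B)).arg < (W (cl A)).arg) :
    (SE H W B).ncard < (SE H W E).ncard := by
  have hab := h
  obtain ⟨hA, hE, hB, -⟩ := h
  have ha : W (cl A) ∈ UH := hW.pos A hA hA0
  have hb : W (cl B) ∈ UH := hW.pos B hB hB0
  have hWE : W (cl E) = W (cl A) + W (cl B) := by rw [SES_cl hab, map_add]
  have hinj : Function.Injective (fun x : K0 C => x + cl A) := add_left_injective _
  rw [← Set.ncard_image_of_injective _ hinj]
  refine Set.ncard_lt_ncard ?_ (SE_finite hH hW hE)
  have hsub : (fun x : K0 C => x + cl A) '' SE H W B ⊆ SE H W E := by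
    rintro _ ⟨_, ⟨B', B'', hS, hB'0, rfl, hcr⟩, rfl⟩
    obtain ⟨A', h1, h2⟩ := sub_preimage hH hab hS
    have e := SES_cl h2
    have hx : W (cl B') ∈ UH := hW.pos B' hS.1 hB'0
    refine ⟨A', B'', h1, ?_, ?_, ?_⟩
    · intro hz
      exact hA0 (SES_isZero hH h2 hz).1
    · rw [e, add_comm]
    · have him : (W (cl B')).im ≤ (W (cl B)).im := by
        rw [SES_cl hS, map_add, Complex.add_im]
        have h3 : 0 ≤ (W (cl B'')).im := by
          by_cases hz : IsZero B''
          · rw [cl_zero hz, map_zero, Complex.zero_im]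
          · exact UH_im_nonneg (hW.pos B'' hS.2.2.1 hz)
        linarith
      have h3 := rect ha hb hx harg him hcr
      show 0 ≤ cr (W (cl E)) (W (cl B' + cl A))
      rw [hWE, map_add, add_comm (W (cl B'))]
      exact h3
  refine (Set.ssubset_iff_of_subset hsub).2 ⟨cl A, ⟨A, B, hab, hA0, rfl, ?_⟩, ?_⟩
  · rw [hWE, cr_add_left, cr_self, zero_add]
    exact ((cr_pos_iff hb ha).2 harg).le
  · rintro ⟨_, ⟨B', B'', hS, hB'0, rfl, -⟩, hx⟩
    have hx' : cl B' + cl A = cl A := hx
    have h3 : cl B' = 0 := by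
      have h4 : cl B' + cl A = 0 + cl A := by rw [hx', zero_add]
      exact add_right_cancel h4
    exact UH_ne_zero (hW.pos B' hS.1 hB'0) (by rw [h3, map_zero])

end MP_14a437_ag
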