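import Pool.Agent.Work.MP_14a437_ag.G.Defs

/-!
# G/Cr  (M) : phases in the half open upper half plane   [complex numbers only]

`cr z w = z.re * w.im - z.im * w.re = ‖z‖ ‖w‖ sin(arg w - arg z)`; on `UH` the argument is in `(0, π]`, so
`arg w - arg z ∈ (-π, π)` and the sign of `cr z w` is the sign of `arg w - arg z`.
`rect`: `cr (a+b) (a+x) = cr a x + cr b a + cr b x`; multiply by `b.im > 0` (`b.im = 0` would give
`arg b = π ≥ arg a`): `b.im * (cr a x + cr b a) ≥ (b.im - x.im) * cr b a ≥ 0`, using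
`b.im * x.re ≤ b.re * x.im` (`cr b x ≥ 0`) and `a.im ≥ 0`.
`arg_le_iff_exp`: `z = ‖z‖ exp(i arg z)`, so `Im (exp(-π i α) z) = ‖z‖ sin(arg z - π α)` with
`arg z - π α ∈ (-π, π)`.
-/

namespace MP_14a437_ag

theorem cr_eq (z w : ℂ) : cr z w = z.re * w.im - z.im * w.re := by
  unfold cr
  simp [Complex.mul_im]
  ring

theorem cr_self (z : ℂ) : cr z z = 0 := by
  rw [cr_eq]; ring

theorem cr_symm (z w : ℂ) : cr z w = - cr w z := by
  rw [cr_eq, cr_eq]; ring

theorem cr_add_right (z w w' : ℂ) : cr z (w + w') = cr z w + cr z w' := by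
  simp only [cr_eq, Complex.add_re, Complex.add_im]; ring

theorem cr_add_left (z z' w : ℂ) : cr (z + z') w = cr z w + cr z' w := by
  simp only [cr_eq, Complex.add_re, Complex.add_im]; ring

theorem UH_add {z w : ℂ} (hz : z ∈ UH) (hw : w ∈ UH) : z + w ∈ UH := by
  rcases hz with hz | ⟨hz, hz'⟩ <;> rcases hw with hw | ⟨hw, hw'⟩
  · exact Or.inl (by rw [Complex.add_im]; linarith)
  · exact Or.inl (by rw [Complex.add_im]; linarith)
  · exact Or.inl (by rw [Complex.add_im]; linarith)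
  · exact Or.inr ⟨by rw [Complex.add_im]; linarith, by rw [Complex.add_re]; linarith⟩

theorem UH_ne_zero {z : ℂ} (hz : z ∈ UH) : z ≠ 0 := by
  rintro rfl
  rcases hz with hz | ⟨_, hz'⟩
  · simp at hz
  · simp at hz'

theorem UH_im_nonneg {z : ℂ} (hz : z ∈ UH) : 0 ≤ z.im := by
  rcases hz with hz | ⟨hz, _⟩
  · exact hz.le
  · exact hz.ge

theorem UH_arg_pos {z : ℂ} (hz : z ∈ UH) : 0 < z.arg := by
  refine lt_of_le_of_ne (Complex.arg_nonneg_iff.mpr (UH_im_nonneg hz)) fun h => ?_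
  have h' := Complex.arg_eq_zero_iff.mp h.symm
  rcases hz with hz | ⟨_, hz'⟩
  · linarith [h'.2]
  · linarith [h'.1]

private lemma sin_pos_iff' {d : ℝ} (h1 : -Real.pi < d) (h2 : d < Real.pi) :
    0 < Real.sin d ↔ 0 < d := by
  constructor
  · intro h
    by_contra hcon
    push Not at hcon
    exact absurd h (not_lt.mpr (Real.sin_nonpos_of_nonpos_of_neg_pi_le hcon h1.le))
  · intro h
    exact Real.sin_pos_of_pos_of_lt_pi h h2

private lemma sin_nonneg_iff' {d : ℝ} (h1 : -Real.pi < d) (h2 : d < Real.pi) :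
    0 ≤ Real.sin d ↔ 0 ≤ d := by
  constructor
  · intro h
    by_contra hcon
    push Not at hcon
    exact absurd h (not_le.mpr (Real.sin_neg_of_neg_of_neg_pi_lt hcon h1))
  · intro h
    exact Real.sin_nonneg_of_nonneg_of_le_pi h h2.le

private lemma cr_arg (z w : ℂ) : cr z w = ‖z‖ * ‖w‖ * Real.sin (w.arg - z.arg) := by
  rw [cr_eq, ← Complex.norm_mul_cos_arg z, ← Complex.norm_mul_sin_arg z,
    ← Complex.norm_mul_cos_arg w, ← Complex.norm_mul_sin_arg w, Real.sin_sub]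
  ring

private lemma exp_im_arg (z : ℂ) (α : ℝ) :
    (Complex.exp (-(Real.pi * α * Complex.I)) * z).im =
      ‖z‖ * Real.sin (z.arg - Real.pi * α) := by
  have h1 : Complex.exp (-(Real.pi * α * Complex.I)) =
      ((Real.cos (Real.pi * α) : ℝ) : ℂ) - ((Real.sin (Real.pi * α) : ℝ) : ℂ) * Complex.I := by
    have h2 : (-(Real.pi * α * Complex.I) : ℂ) = ((-(Real.pi * α) : ℝ) : ℂ) * Complex.I := by
      push_cast; ring
    rw [h2, Complex.exp_mul_I, ← Complex.ofReal_cos, ← Complex.ofReal_sin, Real.cos_neg,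
      Real.sin_neg]
    push_cast
    ring
  have h3 : (Complex.exp (-(Real.pi * α * Complex.I)) * z).im =
      Real.cos (Real.pi * α) * z.im - Real.sin (Real.pi * α) * z.re := by
    rw [h1, Complex.mul_im]
    generalize Real.cos (Real.pi * α) = c
    generalize Real.sin (Real.pi * α) = t
    simp
    ring
  rw [h3, ← Complex.norm_mul_cos_arg z, ← Complex.norm_mul_sin_arg z, Real.sin_sub]
  ring

theorem cr_nonneg_iff {z w : ℂ} (hz : z ∈ UH) (hw : w ∈ UH) : 0 ≤ cr z w ↔ z.arg ≤ w.arg := by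
  rw [cr_arg, mul_nonneg_iff_of_pos_left (mul_pos (norm_pos_iff.mpr (UH_ne_zero hz))
    (norm_pos_iff.mpr (UH_ne_zero hw)))]
  have h1 := UH_arg_pos hz
  have h2 := UH_arg_pos hw
  have h3 := Complex.arg_le_pi z
  have h4 := Complex.arg_le_pi w
  rw [sin_nonneg_iff' (by linarith) (by linarith)]
  exact sub_nonneg

theorem cr_pos_iff {z w : ℂ} (hz : z ∈ UH) (hw : w ∈ UH) : 0 < cr z w ↔ z.arg < w.arg := by
  rw [cr_arg, mul_pos_iff_of_pos_left (mul_pos (norm_pos_iff.mpr (UH_ne_zero hz))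
    (norm_pos_iff.mpr (UH_ne_zero hw)))]
  have h1 := UH_arg_pos hz
  have h2 := UH_arg_pos hw
  have h3 := Complex.arg_le_pi z
  have h4 := Complex.arg_le_pi w
  rw [sin_pos_iff' (by linarith) (by linarith)]
  exact sub_pos

/-- complex numbers with phase `φ ∈ (0, 1]` -/
theorem UH_polar {r φ : ℝ} (hr : 0 < r) (h0 : 0 < φ) (h1 : φ ≤ 1) :
    (r * Complex.exp (Real.pi * φ * Complex.I) : ℂ) ∈ UH ∧
      (r * Complex.exp (Real.pi * φ * Complex.I) : ℂ).arg = Real.pi * φ := by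
  have hpi := Real.pi_pos
  have h2 : 0 < Real.pi * φ := mul_pos hpi h0
  have h3 : Real.pi * φ ≤ Real.pi := by nlinarith
  have h4 : (r * Complex.exp (Real.pi * φ * Complex.I) : ℂ) =
      r * (Complex.cos ((Real.pi * φ : ℝ) : ℂ) + Complex.sin ((Real.pi * φ : ℝ) : ℂ) * Complex.I) := by
    rw [← Complex.exp_mul_I]
    push_cast
    ring_nf
  rw [h4]
  refine ⟨?_, Complex.arg_mul_cos_add_sin_mul_I hr ⟨by linarith, h3⟩⟩
  rw [← Complex.ofReal_cos, ← Complex.ofReal_sin]
  rcases h1.lt_or_eq with h5 | h5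
  · refine Or.inl ?_
    have h6 : 0 < Real.sin (Real.pi * φ) := Real.sin_pos_of_pos_of_lt_pi h2 (by nlinarith)
    have h7 : ((r : ℂ) * (((Real.cos (Real.pi * φ) : ℝ) : ℂ) +
        ((Real.sin (Real.pi * φ) : ℝ) : ℂ) * Complex.I)).im = r * Real.sin (Real.pi * φ) := by
      generalize Real.cos (Real.pi * φ) = c
      generalize Real.sin (Real.pi * φ) = t
      simp
    rw [h7]
    exact mul_pos hr h6
  · subst h5
    refine Or.inr ⟨?_, ?_⟩
    · simp
    · simpa using hr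

theorem UH_eq_norm {z : ℂ} {φ : ℝ} (h : z.arg = Real.pi * φ) :
    z = ‖z‖ * Complex.exp (Real.pi * φ * Complex.I) := by
  have h1 := Complex.norm_mul_exp_arg_mul_I z
  rw [h] at h1
  push_cast at h1
  exact h1.symm

/-- the phase of a sum lies between the phases -/
theorem arg_add_le {z w : ℂ} (hz : z ∈ UH) (hw : w ∈ UH) {t : ℝ} (h1 : z.arg ≤ t) (h2 : w.arg ≤ t) :
    (z + w).arg ≤ t := by
  by_contra hcon
  push Not at hcon
  have hzw := UH_add hz hw
  have h3 := (cr_pos_iff hz hzw).mpr (lt_of_le_of_lt h1 hcon)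
  have h4 := (cr_pos_iff hw hzw).mpr (lt_of_le_of_lt h2 hcon)
  rw [cr_add_right, cr_self, zero_add] at h3
  rw [cr_add_right, cr_self, add_zero, cr_symm] at h4
  linarith

theorem le_arg_add {z w : ℂ} (hz : z ∈ UH) (hw : w ∈ UH) {t : ℝ} (h1 : t ≤ z.arg) (h2 : t ≤ w.arg) :
    t ≤ (z + w).arg := by
  by_contra hcon
  push Not at hcon
  have hzw := UH_add hz hw
  have h3 := (cr_pos_iff hzw hz).mpr (lt_of_lt_of_le hcon h1)
  have h4 := (cr_pos_iff hzw hw).mpr (lt_of_lt_of_le hcon h2)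
  rw [cr_add_left, cr_self, zero_add] at h3
  rw [cr_add_left, cr_self, add_zero, cr_symm] at h4
  linarith

/-- the inequality used in the termination of the HN algorithm -/
theorem rect {a b x : ℂ} (ha : a ∈ UH) (hb : b ∈ UH) (hx : x ∈ UH) (hab : b.arg < a.arg)
    (him : x.im ≤ b.im) (hbx : 0 ≤ cr b x) : 0 ≤ cr (a + b) (a + x) := by
  have hba := (cr_pos_iff hb ha).mpr hab
  have hb0 : 0 < b.im := by
    rcases hb with hb | ⟨hb, hb'⟩
    · exact hb
    · exfalso
      have h1 : b.arg = Real.pi := Complex.arg_eq_pi_iff.mpr ⟨hb', hb⟩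
      have h2 := Complex.arg_le_pi a
      linarith
  have ha0 := UH_im_nonneg ha
  rw [cr_add_left, cr_add_right, cr_add_right, cr_self]
  have h1 : 0 ≤ b.im * (cr a x + cr b a) := by
    rw [cr_eq] at hbx hba
    rw [cr_eq, cr_eq]
    nlinarith [mul_nonneg ha0 hbx, mul_nonneg (sub_nonneg.mpr him) hba.le]
  have h2 : 0 ≤ cr a x + cr b a := nonneg_of_mul_nonneg_right h1 hb0
  linarith

theorem arg_le_iff_exp {z : ℂ} (hz : z ∈ UH) {α : ℝ} (h0 : 0 < α) (h1 : α < 1) :
    z.arg ≤ Real.pi * α ↔ (Complex.exp (-(Real.pi * α * Complex.I)) * z).im ≤ 0 := by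
  have hpi := Real.pi_pos
  have h2 := UH_arg_pos hz
  have h3 := Complex.arg_le_pi z
  have h4 : 0 < Real.pi * α := mul_pos hpi h0
  have h5 : Real.pi * α < Real.pi := by nlinarith
  rw [exp_im_arg, ← not_lt, ← not_lt, not_iff_not,
    mul_pos_iff_of_pos_left (norm_pos_iff.mpr (UH_ne_zero hz)),
    sin_pos_iff' (by linarith) (by linarith)]
  exact sub_pos.symm

theorem le_arg_iff_exp {z : ℂ} (hz : z ∈ UH) {α : ℝ} (h0 : 0 < α) (h1 : α < 1) :
    Real.pi * α ≤ z.arg ↔ 0 ≤ (Complex.exp (-(Real.pi * α * Complex.I)) * z).im := by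
  have hpi := Real.pi_pos
  have h2 := UH_arg_pos hz
  have h3 := Complex.arg_le_pi z
  have h4 : 0 < Real.pi * α := mul_pos hpi h0
  have h5 : Real.pi * α < Real.pi := by nlinarith
  rw [exp_im_arg, mul_nonneg_iff_of_pos_left (norm_pos_iff.mpr (UH_ne_zero hz)),
    sin_nonneg_iff' (by linarith) (by linarith)]
  exact sub_nonneg.symm

end MP_14a437_ag
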