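import Pool.Agent.Work.MP_14a437_ag.G.Sum

/-!
# G/FinPos  (S-M) : positivity of the deformed central charge on the heart

`E` in the heart, nonzero.  `Im Z(E) = imZ Z 0 (cl E) ≥ 0`, and `= Im W(E)`.  If it is `> 0` we are done.
If it is `0`: every HN factor of phase `φ ∈ (0,1]` has `Im Z = ‖Z‖ sin(π φ) ≥ 0`, `> 0` for `φ < 1`.  Show
`Re W(E) < 0` by induction on the HN filtration of `E` (statement: if `HN P E l`, `l ≠ []`, phases in `(0,1]`
and `Im Z(E) = 0` then `Re W(E) < 0`; both pieces have `Im Z = 0`): a factor `A` of phase `1` has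
`Z(A) = -r`, `r = ‖Z(A)‖ > 0`, `Re W(A) ≤ -r + η r < 0`.
-/

open CategoryTheory CategoryTheory.Limits CategoryTheory.Pretriangulated

universe v u

namespace MP_14a437_ag

variable {C : Type u} [Category.{v} C] [Preadditive C] [HasZeroObject C] [HasShift C ℤ]
  [∀ n : ℤ, (shiftFunctor C n).Additive] [Pretriangulated C] [IsTriangulated C]

omit [IsTriangulated C] in
private theorem fpos_factor (σ : PreStab C) (W : K0 C →+ ℂ) {η : ℝ} (hη1 : η < 1) {φ : ℝ} {A : C}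
    (hle : ‖W (cl A) - σ.Z (cl A)‖ ≤ η * ‖σ.Z (cl A)‖) (hA : σ.P φ A) (hA0 : ¬ IsZero A)
    (h0 : 0 < φ) (h1 : φ ≤ 1) :
    0 ≤ (σ.Z (cl A)).im ∧ ((σ.Z (cl A)).im = 0 → (W (cl A)).re < 0) := by
  have him : (σ.Z (cl A)).im = ‖σ.Z (cl A)‖ * Real.sin (Real.pi * φ) := by
    have h2 := imZ_of_P σ 0 hA
    change (Complex.exp (-(Real.pi * ((0 : ℝ) : ℂ) * Complex.I)) * σ.Z (cl A)).im = _ at h2
    simpa using h2
  have hre : (σ.Z (cl A)).re = ‖σ.Z (cl A)‖ * Real.cos (Real.pi * φ) := by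
    have h2 := reZ_of_P σ 0 hA
    change (Complex.exp (-(Real.pi * ((0 : ℝ) : ℂ) * Complex.I)) * σ.Z (cl A)).re = _ at h2
    simpa using h2
  have hn := norm_pos_of_P σ hA hA0
  have hpi := Real.pi_pos
  have h3 : 0 < Real.pi * φ := mul_pos hpi h0
  have h4 : Real.pi * φ ≤ Real.pi := by nlinarith
  refine ⟨?_, fun hz => ?_⟩
  · rw [him]
    exact mul_nonneg hn.le (Real.sin_nonneg_of_nonneg_of_le_pi h3.le h4)
  · have h5 : φ = 1 := by
      by_contra hne
      have h6 : φ < 1 := lt_of_le_of_ne h1 hne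
      have h7 := Real.sin_pos_of_pos_of_lt_pi h3 (by nlinarith)
      rw [him] at hz
      exact absurd hz (mul_pos hn h7).ne'
    rw [h5, mul_one, Real.cos_pi] at hre
    have h8 : (W (cl A) - σ.Z (cl A)).re ≤ ‖W (cl A) - σ.Z (cl A)‖ := Complex.re_le_norm _
    rw [Complex.sub_re] at h8
    have h9 : η * ‖σ.Z (cl A)‖ < ‖σ.Z (cl A)‖ := by nlinarith
    linarith

omit [IsTriangulated C] in
theorem pos_of_near (σ : PreStab C) (W : K0 C →+ ℂ) (hIm : ∀ x, (W x).im = (σ.Z x).im) {η : ℝ}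
    (hη1 : η < 1)
    (hle : ∀ (φ : ℝ) (E : C), σ.P φ E → ‖W (cl E) - σ.Z (cl E)‖ ≤ η * ‖σ.Z (cl E)‖) {E : C}
    (hE : σ.heart 0 E) (h0 : ¬ IsZero E) : W (cl E) ∈ UH := by
  obtain ⟨l, hl, hI⟩ := hE
  have key : 0 ≤ (σ.Z (cl E)).im ∧ ((σ.Z (cl E)).im = 0 →
      (IsZero E ∧ (W (cl E)).re = 0) ∨ (W (cl E)).re < 0) := by
    clear h0
    induction hl with
    | zero h => exact ⟨by rw [cl_zero h, map_zero, Complex.zero_im],
        fun _ => Or.inl ⟨h, by rw [cl_zero h, map_zero, Complex.zero_re]⟩⟩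
    | cons f g k hT hE' hA hA0 _ ih =>
      have h1 := hI _ List.mem_cons_self
      rw [Set.mem_Ioc] at h1
      obtain ⟨h2, h3⟩ := ih fun φ hφ => hI φ (List.mem_cons_of_mem _ hφ)
      obtain ⟨h4, h5⟩ := fpos_factor σ W hη1 (hle _ _ hA) hA hA0 h1.1 (by linarith [h1.2])
      rw [cl_tri f g k hT, map_add, map_add, Complex.add_im, Complex.add_re]
      refine ⟨by linarith, fun hz => Or.inr ?_⟩
      have h6 := h5 (by linarith)
      rcases h3 (by linarith) with h7 | h7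
      · linarith [h7.2]
      · linarith
  rcases key.1.lt_or_eq with h1 | h1
  · left
    rw [hIm]
    exact h1
  · right
    refine ⟨by rw [hIm]; exact h1.symm, ?_⟩
    rcases key.2 h1.symm with h2 | h2
    · exact absurd h2.1 h0
    · exact h2

end MP_14a437_ag
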