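import Pool.Agent.Work.MP_14a437_ag.G.Defs
import Pool.Agent.Work.MP_14a437_ag.S.AdmH

/-!
# G/Quot  (M) : phases of subobjects and quotients in a heart

`quot_phase`: truncate `B` (`PS_trunc`) with `L = Iio c`: `B₁ → B → B₂`, `B₂` has phases in
`Ioc a (a+1) ∩ Iio c`, `B₁` in `Ioc a (a+1) \ Iio c`.  `Hom(E, B₂) = 0` (`PS_hom_zero`), so `B ⟶ B₂` factors
through `A[1]` (`Triangle.yoneda_exact₃`), and `Hom(A[1], B₂) = 0`, so `B ⟶ B₂` is zero; then `𝟙 B₂` factors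
through `B₁[1]` (`Triangle.yoneda_exact₃`), `Hom(B₁[1], B₂) = 0`, so `B₂` is zero and `B ≅ B₁`.
`sub_phase`: truncate `A` with `L = Iic c`: `A₁ → A → A₂`, `A₁` with phases `> c`.  `Hom(A₁, E) = 0`, so
`A₁⟦1⟧ ⟶ A⟦1⟧` factors through `B ⟶ A⟦1⟧` (`Triangle.coyoneda_exact₁`), `Hom(A₁⟦1⟧, B) = 0`, so `A₁ ⟶ A` is
zero; then `𝟙 (A₁⟦1⟧)` factors through `A₂`, `Hom(A₁⟦1⟧, A₂) = 0`, so `A₁` is zero.
-/

open CategoryTheory CategoryTheory.Limits CategoryTheory.Pretriangulated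

universe v u

namespace MP_14a437_ag

variable {C : Type u} [Category.{v} C] [Preadditive C] [HasZeroObject C] [HasShift C ℤ]
  [∀ n : ℤ, (shiftFunctor C n).Additive] [Pretriangulated C] [IsTriangulated C]

theorem quot_phase (S : Slicing C) (a c : ℝ) {A E B : C} (h : SES (S.heart a) A E B)
    (hE : S.PS (Set.Icc c (a + 1)) E) : S.PS (Set.Icc c (a + 1)) B := by
  obtain ⟨hA, -, hB, f, g, δ, hT⟩ := h
  obtain ⟨B₁, B₂, i, p, q, hT', hB1, hB2⟩ := PS_trunc S (isLowerSet_Iio c) hB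
  have hA1 : S.PS (Set.Ioc (a + 1) (a + 2)) (A⟦(1 : ℤ)⟧) := PS_shiftn S 1 (by
    intro φ hφ
    have h1 := hφ.1
    have h2 := hφ.2
    push_cast
    exact ⟨by linarith, by linarith⟩) hA
  have hB11 : S.PS (Set.Ioc (a + 1) (a + 2)) (B₁⟦(1 : ℤ)⟧) := PS_shiftn S 1 (by
    intro φ hφ
    have h1 := hφ.1.1
    have h2 := hφ.1.2
    push_cast
    exact ⟨by linarith, by linarith⟩) hB1
  have hgp : g ≫ p = 0 := PS_hom_zero S (by
    intro φ hφ ψ hψ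
    exact lt_of_lt_of_le hψ.2 hφ.1) hE hB2 _
  have hp : p = 0 := by
    obtain ⟨g', hg'⟩ := Triangle.yoneda_exact₃ _ hT p hgp
    have h0 : g' = 0 := PS_hom_zero S (by
      intro φ hφ ψ hψ
      exact lt_of_le_of_lt hψ.1.2 hφ.1) hA1 hB2 _
    rw [hg', h0]
    exact comp_zero
  have hZ : IsZero B₂ := by
    rw [IsZero.iff_id_eq_zero]
    obtain ⟨g', hg'⟩ := Triangle.yoneda_exact₃ _ hT' (𝟙 B₂) (by
      show p ≫ 𝟙 B₂ = 0
      rw [hp, zero_comp])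
    have h0 : g' = 0 := PS_hom_zero S (by
      intro φ hφ ψ hψ
      exact lt_of_le_of_lt hψ.1.2 hφ.1) hB11 hB2 _
    refine hg'.trans ?_
    rw [h0]
    exact comp_zero
  have hi : IsIso i := (Triangle.isZero₃_iff_isIso₁ _ hT').1 hZ
  refine PS_mono S ?_ (PS_iso S (asIso i) hB1)
  intro φ hφ
  exact ⟨not_lt.1 hφ.2, hφ.1.2⟩

theorem sub_phase (S : Slicing C) (a c : ℝ) {A E B : C} (h : SES (S.heart a) A E B)
    (hE : S.PS (Set.Ioc a c) E) : S.PS (Set.Ioc a c) A := by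
  obtain ⟨hA, -, hB, f, g, δ, hT⟩ := h
  obtain ⟨A₁, A₂, i, p, q, hT', hA1, hA2⟩ := PS_trunc S (isLowerSet_Iic c) hA
  have hA11 : S.PS (Set.Ioc (a + 1) (a + 2)) (A₁⟦(1 : ℤ)⟧) := PS_shiftn S 1 (by
    intro φ hφ
    have h1 := hφ.1.1
    have h2 := hφ.1.2
    push_cast
    exact ⟨by linarith, by linarith⟩) hA1
  have hif : i ≫ f = 0 := PS_hom_zero S (by
    intro φ hφ ψ hψ
    exact lt_of_le_of_lt hψ.2 (not_le.1 hφ.2)) hA1 hE _
  have hi : i⟦(1 : ℤ)⟧' = 0 := by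
    obtain ⟨g', hg'⟩ := Triangle.coyoneda_exact₁ _ hT (i⟦(1 : ℤ)⟧') (by
      show i⟦(1 : ℤ)⟧' ≫ f⟦(1 : ℤ)⟧' = 0
      rw [← Functor.map_comp, hif, Functor.map_zero])
    have h0 : g' = 0 := PS_hom_zero S (by
      intro φ hφ ψ hψ
      exact lt_of_le_of_lt hψ.2 hφ.1) hA11 hB _
    refine hg'.trans ?_
    rw [h0]
    exact zero_comp
  have hZ' : IsZero (A₁⟦(1 : ℤ)⟧) := by
    rw [IsZero.iff_id_eq_zero]
    obtain ⟨g', hg'⟩ := Triangle.coyoneda_exact₁ _ hT' (𝟙 (A₁⟦(1 : ℤ)⟧)) (by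
      show 𝟙 _ ≫ i⟦(1 : ℤ)⟧' = 0
      rw [hi, comp_zero])
    have h0 : g' = 0 := PS_hom_zero S (by
      intro φ hφ ψ hψ
      exact lt_of_le_of_lt hψ.1.2 hφ.1) hA11 hA2 _
    refine hg'.trans ?_
    rw [h0]
    exact zero_comp
  have hZ : IsZero A₁ := (isZero_shift_iff A₁ 1).1 hZ'
  have hpi : IsIso p := (Triangle.isZero₁_iff_isIso₂ _ hT').1 hZ
  refine PS_mono S ?_ (PS_iso S (asIso p).symm hA2)
  intro φ hφ
  exact ⟨hφ.1.1, hφ.2⟩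

end MP_14a437_ag
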