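import Pool.Agent.Work.MP_14a437_ag.G.Defs

/-!
# G/Sub  (S-M) : calculus of subobjects (octahedral axiom)

`sub_trans`: octahedron for the composite `A' ⟶ A ⟶ E` (`Triangulated.someOctahedron`): its cone `B'` sits
in `A'' → B' → B`, so `H B'` by `hH.ext`.
`sub_preimage`: `Triangulated.someOctahedron'` for `E ⟶ B ⟶ B''`: the fibre `A'` sits in `A → A' → B'`.
`SES_zero_map`: if `f : A ⟶ E` is zero, `𝟙 (A⟦1⟧)` factors through `h : B ⟶ A⟦1⟧`
(`Triangle.coyoneda_exact₁`), and `Hom(A⟦1⟧, B) = 0` (`hom_neg` after a shift, see A/Schur `hom_pos`).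
-/

open CategoryTheory CategoryTheory.Limits CategoryTheory.Pretriangulated

universe v u

namespace MP_14a437_ag

variable {C : Type u} [Category.{v} C] [Preadditive C] [HasZeroObject C] [HasShift C ℤ]
  [∀ n : ℤ, (shiftFunctor C n).Additive] [Pretriangulated C] [IsTriangulated C]

omit [IsTriangulated C] in
theorem SES_cl {H : ObjectProperty C} {A E B : C} (h : SES H A E B) : cl E = cl A + cl B := by
  obtain ⟨-, -, -, f, g, h, hT⟩ := h
  exact cl_tri f g h hT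

omit [IsTriangulated C] in
private theorem gsub_pos {H : ObjectProperty C} (hH : IsAdm H) {X Y : C} (hX : H X) (hY : H Y)
    {n : ℤ} (hn : 0 < n) (f : X⟦n⟧ ⟶ Y) : f = 0 := by
  apply (shiftFunctor C (-n)).map_injective
  rw [Functor.map_zero]
  have h1 : (shiftFunctorCompIsoId C n (-n) (by omega)).inv.app X ≫ f⟦-n⟧' = 0 :=
    hH.hom_neg X Y (-n) (by omega) hX hY _
  exact (Preadditive.IsIso.comp_left_eq_zero _ _).1 h1

theorem sub_trans {H : ObjectProperty C} (hH : IsAdm H) {A' A A'' E B : C}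
    (h1 : SES H A' A A'') (h2 : SES H A E B) : ∃ B', SES H A' E B' ∧ SES H A'' B' B := by
  obtain ⟨hA', -, hA'', a, b, c, hT1⟩ := h1
  obtain ⟨-, hE, hB, f, g, h, hT2⟩ := h2
  obtain ⟨B', v, w, hT3⟩ := distinguished_cocone_triangle (a ≫ f)
  obtain ⟨m₁, m₃, -, -, -, -, hm⟩ :=
    Triangulated.someOctahedron (rfl : a ≫ f = a ≫ f) hT1 hT2 hT3
  have hB' : H B' := hH.ext _ _ _ hm hA'' hB
  exact ⟨B', ⟨hA', hE, hB', _, _, _, hT3⟩, ⟨hA'', hB', hB, _, _, _, hm⟩⟩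

theorem sub_preimage {H : ObjectProperty C} (hH : IsAdm H) {A E B B' B'' : C}
    (h1 : SES H A E B) (h2 : SES H B' B B'') : ∃ A', SES H A' E B'' ∧ SES H A A' B' := by
  obtain ⟨hA, hE, -, f, g, h, hT1⟩ := h1
  obtain ⟨hB', -, hB'', a, b, c, hT2⟩ := h2
  obtain ⟨A', i, δ, hT3⟩ := distinguished_cocone_triangle₁ (g ≫ b)
  obtain ⟨m₁, m₃, -, -, -, -, hm⟩ :=
    Triangulated.someOctahedron' (rfl : g ≫ b = g ≫ b) hT1 hT2 hT3
  have hA' : H A' := hH.ext _ _ _ hm hA hB'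
  exact ⟨A', ⟨hA', hE, hB'', _, _, _, hT3⟩, ⟨hA, hA', hB', _, _, _, hm⟩⟩

omit [IsTriangulated C] in
theorem SES_self {H : ObjectProperty C} (hH : IsAdm H) {E : C} (hE : H E) :
    ∃ Z : C, IsZero Z ∧ SES H E E Z := by
  obtain ⟨Z, hZ⟩ := HasZeroObject.zero (C := C)
  refine ⟨Z, hZ, hE, hE, hH.zero _ hZ, 𝟙 E, 0, 0, ?_⟩
  exact isomorphic_distinguished _ (contractible_distinguished E) _
    (Triangle.isoMk _ _ (Iso.refl _) (Iso.refl _) (hZ.iso (isZero_zero C)) rfl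
      ((isZero_zero C).eq_of_tgt _ _) (hZ.eq_of_src _ _))

omit [IsTriangulated C] in
theorem SES_zero_map {H : ObjectProperty C} (hH : IsAdm H) {A E B : C} (hA : H A) (hB : H B)
    (f : A ⟶ E) (g : E ⟶ B) (h : B ⟶ A⟦(1 : ℤ)⟧) (hT : Triangle.mk f g h ∈ distTriang C)
    (hf : f = 0) : IsZero A := by
  obtain ⟨k, hk⟩ := Triangle.coyoneda_exact₁ _ hT (𝟙 (A⟦(1 : ℤ)⟧)) (by
    show 𝟙 _ ≫ f⟦(1 : ℤ)⟧' = 0
    rw [hf, Functor.map_zero, comp_zero])
  have hk0 : k = 0 := gsub_pos hH hA hB (by norm_num) k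
  rw [IsZero.iff_id_eq_zero]
  apply (shiftFunctor C (1 : ℤ)).map_injective
  rw [CategoryTheory.Functor.map_id, Functor.map_zero]
  refine hk.trans ?_
  rw [hk0]
  exact zero_comp

omit [IsTriangulated C] in
theorem hom_shift_zero {H : ObjectProperty C} (hH : IsAdm H) {A B : C} (hA : H A) (hB : H B)
    (f : A⟦(1 : ℤ)⟧ ⟶ B) : f = 0 :=
  gsub_pos hH hA hB (by norm_num) f

/-- the middle class is zero iff both outer ones are (objects of `H`) -/
theorem SES_isZero {H : ObjectProperty C} (hH : IsAdm H) {A E B : C} (h : SES H A E B)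
    (hE : IsZero E) : IsZero A ∧ IsZero B := by
  obtain ⟨hA, -, hB, f, g, h, hT⟩ := h
  have h1 : IsZero A := SES_zero_map hH hA hB f g h hT (hE.eq_of_tgt f 0)
  exact ⟨h1, Triangle.isZero₃_of_isZero₁₂ _ hT h1 hE⟩

end MP_14a437_ag
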