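import Pool.Agent.Work.MP_14a437_ag.G.Sum
import Pool.Agent.Work.MP_14a437_ag.G.Sub
import Pool.Agent.Work.MP_14a437_ag.G.Quot

/-!
# G/FinW  (M-L) : finiteness of the classes of subobjects with bounded real part

If `E` is zero all subobjects are zero (`SES_isZero`), the set is contained in `{0}`.  Let `c₀ ∈ (0,1]` be the
smallest HN phase of `E` (head of the list), so `E ∈ PS (Icc c₀ 1)`; put `y = Im Z(E)`.
Let `A → E → B` be in the heart `H = σ.heart 0`, `Re W(A) ≤ M`.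
1. `Im Z ≥ 0` on `H` (`PS_nonneg`, `imZ_of_P` with `α = 0`), so `Im Z ≤ y` for `A`, `B` and their parts.
2. Truncate `A` with `L = Iic (1/2)`: `A₊ → A → A₋`.  By `sub_trans`, `A₊ → E → B'` in `H`, and
   `B' ∈ PS (Icc c₀ 1)` (`quot_phase` with `a = 0`).
3. With `κ₀ = |cos(π c₀)| / sin(π c₀)` (which is `0` for `c₀ = 1`): `Re Z(X) ≤ κ₀ Im Z(X)` on
   `PS (Icc c₀ 1)` (`PS_nonneg`; a factor of phase `φ' ∈ [c₀,1]`: `cos π φ' ≤ κ₀ sin π φ'`, clear if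
   `φ' ≥ 1/2`, else `sin(π(φ'-c₀)) ≥ 0`).  So `Re Z(A₊) = Re Z(E) - Re Z(B') ≥ Re Z(E) - κ₀ y =: -b`.
4. On `A₊` (phases in `(1/2,1]`) `‖Z(X)‖ ≤ Im Z(X) - Re Z(X)` for factors, on `A₋` (phases in `(0,1/2]`)
   `‖Z(X)‖ ≤ Im Z(X) + Re Z(X)`.  With `PS_norm_le`: `‖(W-Z)(A₊)‖ ≤ η (b + y)`,
   `‖(W-Z)(A₋)‖ ≤ η (y + Re Z(A₋))`.
5. `M ≥ Re W(A) ≥ -b - η(b+y) + (1-η) Re Z(A₋) - η y`, so `Re Z(A₋) ≤ m` for a constant `m`.
6. For every coordinate functional `l` (basis of `K0 C`), `|l(X)| ≤ c ‖Z(X)‖` on semistable objects, so by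
   `PS_norm_le` `|l(A)| ≤ |l(A₊)| + |l(A₋)| ≤ c (b + y) + c (y + m)` (take `c ≥ 0`): bounded integers, so
   finitely many classes (see `finite_classes` in T/Mass).
-/

open CategoryTheory CategoryTheory.Limits CategoryTheory.Pretriangulated

universe v u

namespace MP_14a437_ag

variable {C : Type u} [Category.{v} C] [Preadditive C] [HasZeroObject C] [HasShift C ℤ]
  [∀ n : ℤ, (shiftFunctor C n).Additive] [Pretriangulated C] [IsTriangulated C]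

private theorem fw_kappa {c₀ : ℝ} (h0 : 0 < c₀) (h1 : c₀ ≤ 1) :
    ∃ κ : ℝ, 0 ≤ κ ∧ ∀ φ : ℝ, c₀ ≤ φ → φ ≤ 1 →
      Real.cos (Real.pi * φ) ≤ κ * Real.sin (Real.pi * φ) := by
  have hpi := Real.pi_pos
  rcases eq_or_lt_of_le h1 with h1 | h1
  · refine ⟨0, le_rfl, fun φ h2 h3 => ?_⟩
    have h4 : φ = 1 := by linarith
    rw [h4, mul_one, Real.cos_pi, zero_mul]
    norm_num
  · have hs0 : 0 < Real.sin (Real.pi * c₀) :=
      Real.sin_pos_of_pos_of_lt_pi (by positivity) (by nlinarith)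
    refine ⟨|Real.cos (Real.pi * c₀)| / Real.sin (Real.pi * c₀), by positivity,
      fun φ h2 h3 => ?_⟩
    have hs : 0 ≤ Real.sin (Real.pi * φ) :=
      Real.sin_nonneg_of_nonneg_of_le_pi (by nlinarith) (by nlinarith)
    rcases le_or_gt (1 / 2) φ with h4 | h4
    · have h5 : Real.cos (Real.pi * φ) ≤ 0 :=
        Real.cos_nonpos_of_pi_div_two_le_of_le (by nlinarith) (by nlinarith)
      have h6 : 0 ≤ |Real.cos (Real.pi * c₀)| / Real.sin (Real.pi * c₀) *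
          Real.sin (Real.pi * φ) := by positivity
      linarith
    · have h5 : 0 ≤ Real.sin (Real.pi * φ - Real.pi * c₀) :=
        Real.sin_nonneg_of_nonneg_of_le_pi (by nlinarith) (by nlinarith)
      rw [Real.sin_sub] at h5
      have h6 : Real.sin (Real.pi * φ) * Real.cos (Real.pi * c₀) ≤
          Real.sin (Real.pi * φ) * |Real.cos (Real.pi * c₀)| :=
        mul_le_mul_of_nonneg_left (le_abs_self _) hs
      rw [div_mul_eq_mul_div, le_div_iff₀ hs0]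
      linarith

private theorem fw_plus {φ : ℝ} (h0 : 1 / 2 < φ) (h1 : φ ≤ 1) :
    1 ≤ Real.sin (Real.pi * φ) - Real.cos (Real.pi * φ) := by
  have hpi := Real.pi_pos
  have hs : 0 ≤ Real.sin (Real.pi * φ) :=
    Real.sin_nonneg_of_nonneg_of_le_pi (by nlinarith) (by nlinarith)
  have hc : Real.cos (Real.pi * φ) ≤ 0 :=
    Real.cos_nonpos_of_pi_div_two_le_of_le (by nlinarith) (by nlinarith)
  have h2 := Real.sin_sq_add_cos_sq (Real.pi * φ)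
  nlinarith [mul_nonneg hs (neg_nonneg.2 hc)]

private theorem fw_minus {φ : ℝ} (h0 : 0 < φ) (h1 : φ ≤ 1 / 2) :
    1 ≤ Real.sin (Real.pi * φ) + Real.cos (Real.pi * φ) := by
  have hpi := Real.pi_pos
  have hs : 0 ≤ Real.sin (Real.pi * φ) :=
    Real.sin_nonneg_of_nonneg_of_le_pi (by nlinarith) (by nlinarith)
  have hc : 0 ≤ Real.cos (Real.pi * φ) :=
    Real.cos_nonneg_of_neg_pi_div_two_le_of_le (by nlinarith) (by nlinarith)
  have h2 := Real.sin_sq_add_cos_sq (Real.pi * φ)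
  nlinarith [mul_nonneg hs hc]

omit [IsTriangulated C] in
private theorem fw_im (σ : StabCond C) {φ : ℝ} {X : C} (hX : σ.P φ X) :
    imZ σ.Z 0 (cl X) = ‖σ.Z (cl X)‖ * Real.sin (Real.pi * φ) := by
  have h1 := imZ_of_P σ.toPre 0 (φ := φ) (X := X) hX
  rw [sub_zero] at h1
  exact h1

omit [IsTriangulated C] in
private theorem fw_re (σ : StabCond C) {φ : ℝ} {X : C} (hX : σ.P φ X) :
    reZ σ.Z 0 (cl X) = ‖σ.Z (cl X)‖ * Real.cos (Real.pi * φ) := by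
  have h1 := reZ_of_P σ.toPre 0 (φ := φ) (X := X) hX
  rw [sub_zero] at h1
  exact h1

omit [IsTriangulated C] in
private theorem fw_re0 (Z : K0 C →+ ℂ) (x : K0 C) : reZ Z 0 x = (Z x).re := by
  show (Complex.exp (-(Real.pi * ((0 : ℝ) : ℂ) * Complex.I)) * Z x).re = _
  simp

omit [IsTriangulated C] in
private theorem fw_im_nonneg (σ : StabCond C) {X : C} (hX : σ.heart 0 X) :
    0 ≤ imZ σ.Z 0 (cl X) := by
  refine PS_nonneg σ.toSlicing (imZ σ.Z 0) ?_ hX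
  intro φ hφ X hX
  rw [fw_im σ hX]
  have hpi := Real.pi_pos
  have h1 := hφ.1
  have h2 := hφ.2
  exact mul_nonneg (norm_nonneg _)
    (Real.sin_nonneg_of_nonneg_of_le_pi (by nlinarith) (by nlinarith))

omit [IsTriangulated C] in
private theorem fw_norm_plus (σ : StabCond C) {φ : ℝ} (h : φ ∈ Set.Ioc (0 : ℝ) (0 + 1) \ Set.Iic (1 / 2))
    {X : C} (hX : σ.P φ X) : ‖σ.Z (cl X)‖ ≤ imZ σ.Z 0 (cl X) - reZ σ.Z 0 (cl X) := by
  rw [fw_im σ hX, fw_re σ hX, ← mul_sub]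
  have h1 := fw_plus (φ := φ) (not_le.1 h.2) (by have := h.1.2; linarith)
  exact le_mul_of_one_le_right (norm_nonneg _) h1

omit [IsTriangulated C] in
private theorem fw_norm_minus (σ : StabCond C) {φ : ℝ} (h : φ ∈ Set.Ioc (0 : ℝ) (0 + 1) ∩ Set.Iic (1 / 2))
    {X : C} (hX : σ.P φ X) : ‖σ.Z (cl X)‖ ≤ imZ σ.Z 0 (cl X) + reZ σ.Z 0 (cl X) := by
  rw [fw_im σ hX, fw_re σ hX, ← mul_add]
  have h1 := fw_minus (φ := φ) h.1.1 h.2
  exact le_mul_of_one_le_right (norm_nonneg _) h1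

omit [IsTriangulated C] in
/-- a functional bounded by `c ‖Z‖` on semistable objects is bounded by `c m` on `PS I` if `‖Z‖ ≤ m`
on the semistable objects with phase in `I` -/
private theorem fw_bound (σ : StabCond C) {I : Set ℝ} (u : K0 C →+ ℂ) (m : K0 C →+ ℝ) {c : ℝ}
    (hc : 0 ≤ c) (hu : ∀ (φ : ℝ) (X : C), σ.P φ X → ‖u (cl X)‖ ≤ c * ‖σ.Z (cl X)‖)
    (h : ∀ φ ∈ I, ∀ X : C, σ.P φ X → ‖σ.Z (cl X)‖ ≤ m (cl X)) {E : C} (hE : σ.PS I E) :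
    ‖u (cl E)‖ ≤ c * m (cl E) := by
  refine PS_norm_le σ.toSlicing u ((AddMonoidHom.mulLeft c).comp m) ?_ hE
  intro φ hφ X hX
  exact (hu φ X hX).trans (mul_le_mul_of_nonneg_left (h φ hφ X hX) hc)

/-- the geometric part: bounds for the two truncations of a subobject -/
private theorem fw_geo (σ : StabCond C) (W : K0 C →+ ℂ) {η : ℝ} (hη0 : 0 ≤ η) (hη1 : η < 1)
    (hle : ∀ (φ : ℝ) (E : C), σ.P φ E → ‖W (cl E) - σ.Z (cl E)‖ ≤ η * ‖σ.Z (cl E)‖) {E : C}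
    (hE : σ.heart 0 E) (hE0 : ¬ IsZero E) (M : ℝ) :
    ∃ R : ℝ, ∀ A B : C, SES (σ.heart 0) A E B → (W (cl A)).re ≤ M →
      ∃ A₁ A₂ : C, cl A = cl A₁ + cl A₂ ∧
        σ.PS (Set.Ioc (0 : ℝ) (0 + 1) \ Set.Iic (1 / 2)) A₁ ∧
        σ.PS (Set.Ioc (0 : ℝ) (0 + 1) ∩ Set.Iic (1 / 2)) A₂ ∧
        (imZ σ.Z 0 - reZ σ.Z 0) (cl A₁) + (imZ σ.Z 0 + reZ σ.Z 0) (cl A₂) ≤ R := by
  have hH := heart_isAdm σ.toSlicing 0
  obtain ⟨c₀, hc0, hc1, hEc⟩ : ∃ c₀ : ℝ, 0 < c₀ ∧ c₀ ≤ 1 ∧ σ.PS (Set.Icc c₀ (0 + 1)) E := by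
    obtain ⟨l, hl, hI⟩ := hE
    have hs := hn_sorted hl
    cases l with
    | nil => exact absurd (isZero_of_hn_nil hl) hE0
    | cons c₀ l =>
      have h1 := hI c₀ List.mem_cons_self
      refine ⟨c₀, h1.1, by have := h1.2; linarith, c₀ :: l, hl, ?_⟩
      intro φ hφ
      refine ⟨?_, (hI φ hφ).2⟩
      rcases List.mem_cons.1 hφ with h2 | h2
      · exact h2.symm.le
      · exact ((List.pairwise_cons.1 hs).1 φ h2).le
  obtain ⟨κ, hκ0, hκ⟩ := fw_kappa hc0 hc1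
  refine ⟨(imZ σ.Z 0 (cl E) + (κ * imZ σ.Z 0 (cl E) - reZ σ.Z 0 (cl E))) +
    (imZ σ.Z 0 (cl E) + (M + (1 + η) * (κ * imZ σ.Z 0 (cl E) - reZ σ.Z 0 (cl E)) +
      2 * η * imZ σ.Z 0 (cl E)) / (1 - η)), ?_⟩
  intro A B hAB hM
  obtain ⟨A₁, A₂, f, g, h, hT, hA1, hA2⟩ := PS_trunc σ.toSlicing (isLowerSet_Iic (1 / 2 : ℝ)) hAB.1
  have hA1H : σ.heart 0 A₁ := PS_mono σ.toSlicing Set.diff_subset hA1
  have hA2H : σ.heart 0 A₂ := PS_mono σ.toSlicing Set.inter_subset_left hA2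
  have hclA : cl A = cl A₁ + cl A₂ := cl_tri f g h hT
  have hS1 : SES (σ.heart 0) A₁ A A₂ := ⟨hA1H, hAB.1, hA2H, f, g, h, hT⟩
  obtain ⟨B', hB', -⟩ := sub_trans hH hS1 hAB
  have hB'c := quot_phase σ.toSlicing 0 c₀ hB' hEc
  have hclE := SES_cl hB'
  have hclE2 := SES_cl hAB
  refine ⟨A₁, A₂, hclA, hA1, hA2, ?_⟩
  have i1 := fw_im_nonneg σ hA1H
  have i2 := fw_im_nonneg σ hA2H
  have i3 := fw_im_nonneg σ hB'.2.2.1
  have i4 := fw_im_nonneg σ hAB.2.2.1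
  have iE : imZ σ.Z 0 (cl E) = imZ σ.Z 0 (cl A₁) + imZ σ.Z 0 (cl B') := by
    rw [hclE, map_add]
  have iE2 : imZ σ.Z 0 (cl E) = imZ σ.Z 0 (cl A₁) + imZ σ.Z 0 (cl A₂) + imZ σ.Z 0 (cl B) := by
    rw [hclE2, hclA, map_add, map_add]
  have rE : reZ σ.Z 0 (cl E) = reZ σ.Z 0 (cl A₁) + reZ σ.Z 0 (cl B') := by
    rw [hclE, map_add]
  have hkB : 0 ≤ κ * imZ σ.Z 0 (cl B') - reZ σ.Z 0 (cl B') := by
    have h1 := PS_nonneg σ.toSlicing ((AddMonoidHom.mulLeft κ).comp (imZ σ.Z 0) - reZ σ.Z 0) ?_ hB'c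
    · exact h1
    · intro φ hφ X hX
      show 0 ≤ κ * imZ σ.Z 0 (cl X) - reZ σ.Z 0 (cl X)
      rw [fw_im σ hX, fw_re σ hX]
      have h2 := hκ φ hφ.1 (by have := hφ.2; linarith)
      have h3 := mul_le_mul_of_nonneg_left h2 (norm_nonneg (σ.Z (cl X)))
      nlinarith
  have w1 : ‖(W - σ.Z) (cl A₁)‖ ≤ η * (imZ σ.Z 0 - reZ σ.Z 0) (cl A₁) :=
    fw_bound σ (W - σ.Z) (imZ σ.Z 0 - reZ σ.Z 0) hη0 (fun φ X hX => hle φ X hX)
      (fun φ hφ X hX => fw_norm_plus σ hφ hX) hA1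
  have w2 : ‖(W - σ.Z) (cl A₂)‖ ≤ η * (imZ σ.Z 0 + reZ σ.Z 0) (cl A₂) :=
    fw_bound σ (W - σ.Z) (imZ σ.Z 0 + reZ σ.Z 0) hη0 (fun φ X hX => hle φ X hX)
      (fun φ hφ X hX => fw_norm_minus σ hφ hX) hA2
  have v1 : -(η * (imZ σ.Z 0 (cl A₁) - reZ σ.Z 0 (cl A₁))) ≤
      (W (cl A₁)).re - (σ.Z (cl A₁)).re :=
    (abs_le.1 ((Complex.abs_re_le_norm _).trans w1)).1
  have v2 : -(η * (imZ σ.Z 0 (cl A₂) + reZ σ.Z 0 (cl A₂))) ≤
      (W (cl A₂)).re - (σ.Z (cl A₂)).re :=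
    (abs_le.1 ((Complex.abs_re_le_norm _).trans w2)).1
  rw [← fw_re0 σ.Z] at v1 v2
  rw [AddMonoidHom.sub_apply, AddMonoidHom.add_apply]
  rw [hclA, map_add, Complex.add_re] at hM
  have hη : 0 < 1 - η := by linarith
  set y := imZ σ.Z 0 (cl E)
  set r := reZ σ.Z 0 (cl E)
  set y1 := imZ σ.Z 0 (cl A₁)
  set y2 := imZ σ.Z 0 (cl A₂)
  set r1 := reZ σ.Z 0 (cl A₁)
  set r2 := reZ σ.Z 0 (cl A₂)
  have hb1 : κ * imZ σ.Z 0 (cl B') ≤ κ * y := mul_le_mul_of_nonneg_left (by linarith) hκ0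
  have hb : -r1 ≤ κ * y - r := by linarith
  have hy1 : y1 ≤ y := by linarith
  have hy2 : y2 ≤ y := by linarith
  have e1 : η * y1 ≤ η * y := mul_le_mul_of_nonneg_left hy1 hη0
  have e2 : η * y2 ≤ η * y := mul_le_mul_of_nonneg_left hy2 hη0
  have e3 : (1 + η) * (-r1) ≤ (1 + η) * (κ * y - r) :=
    mul_le_mul_of_nonneg_left hb (by linarith)
  have hr2 : r2 ≤ (M + (1 + η) * (κ * y - r) + 2 * η * y) / (1 - η) := by
    rw [le_div_iff₀ hη]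
    nlinarith
  linarith

theorem fin_of_near [Module.Free ℤ (K0 C)] [Module.Finite ℤ (K0 C)] (σ : StabCond C)
    (W : K0 C →+ ℂ) {η : ℝ} (hη0 : 0 ≤ η) (hη1 : η < 1)
    (hle : ∀ (φ : ℝ) (E : C), σ.P φ E → ‖W (cl E) - σ.Z (cl E)‖ ≤ η * ‖σ.Z (cl E)‖) {E : C}
    (hE : σ.heart 0 E) (M : ℝ) :
    {x : K0 C | ∃ A B : C, SES (σ.heart 0) A E B ∧ cl A = x ∧ (W x).re ≤ M}.Finite := by
  classical
  have hH := heart_isAdm σ.toSlicing 0
  by_cases hE0 : IsZero E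
  · refine (Set.finite_singleton (0 : K0 C)).subset ?_
    rintro x ⟨A, B, hAB, rfl, -⟩
    exact cl_zero (SES_isZero hH hAB hE0).1
  obtain ⟨R, hR⟩ := fw_geo σ W hη0 hη1 hle hE hE0 M
  choose c hc using fun i : Module.Free.ChooseBasisIndex ℤ (K0 C) =>
    σ.support ((Int.castAddHom ℝ).comp ((Module.Free.chooseBasis ℤ (K0 C)).coord i).toAddMonoidHom)
  have hfin : (Set.univ.pi (fun i : Module.Free.ChooseBasisIndex ℤ (K0 C) =>
      Set.Icc ⌊-(|c i| * R)⌋ ⌈|c i| * R⌉)).Finite := Set.Finite.pi fun _ => Set.finite_Icc _ _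
  refine (hfin.preimage ((Module.Free.chooseBasis ℤ (K0 C)).equivFun.injective.injOn)).subset ?_
  rintro x ⟨A, B, hAB, rfl, hM⟩
  obtain ⟨A₁, A₂, hcl, hA1, hA2, hb⟩ := hR A B hAB hM
  rw [Set.mem_preimage, Set.mem_univ_pi]
  intro i
  have hu : ∀ (φ : ℝ) (X : C), σ.P φ X →
      ‖(Complex.ofRealHom.toAddMonoidHom.comp ((Int.castAddHom ℝ).comp
        ((Module.Free.chooseBasis ℤ (K0 C)).coord i).toAddMonoidHom)) (cl X)‖ ≤
        |c i| * ‖σ.Z (cl X)‖ := by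
    intro φ X hX
    have h1 := hc i φ X hX
    have h2 : ‖(Complex.ofRealHom.toAddMonoidHom.comp ((Int.castAddHom ℝ).comp
        ((Module.Free.chooseBasis ℤ (K0 C)).coord i).toAddMonoidHom)) (cl X)‖ =
        |((Int.castAddHom ℝ).comp ((Module.Free.chooseBasis ℤ (K0 C)).coord i).toAddMonoidHom)
          (cl X)| := Complex.norm_real _
    rw [h2]
    exact h1.trans (mul_le_mul_of_nonneg_right (le_abs_self _) (norm_nonneg _))
  have n1 := fw_bound σ _ (imZ σ.Z 0 - reZ σ.Z 0) (abs_nonneg (c i)) hu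
    (fun φ hφ X hX => fw_norm_plus σ hφ hX) hA1
  have n2 := fw_bound σ _ (imZ σ.Z 0 + reZ σ.Z 0) (abs_nonneg (c i)) hu
    (fun φ hφ X hX => fw_norm_minus σ hφ hX) hA2
  have h3 : ‖(Complex.ofRealHom.toAddMonoidHom.comp ((Int.castAddHom ℝ).comp
      ((Module.Free.chooseBasis ℤ (K0 C)).coord i).toAddMonoidHom)) (cl A)‖ ≤ |c i| * R := by
    rw [hcl, map_add]
    refine (norm_add_le _ _).trans ((add_le_add n1 n2).trans ?_)
    rw [← mul_add]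
    exact mul_le_mul_of_nonneg_left hb (abs_nonneg _)
  have h4 : |(((Module.Free.chooseBasis ℤ (K0 C)).repr (cl A) i : ℤ) : ℝ)| ≤ |c i| * R := by
    refine le_trans (le_of_eq ?_) h3
    exact (Complex.norm_real _).symm
  have h5 := abs_le.1 h4
  rw [Module.Basis.equivFun_apply, Set.mem_Icc]
  constructor
  · have h6 : ((⌊-(|c i| * R)⌋ : ℤ) : ℝ) ≤
        (((Module.Free.chooseBasis ℤ (K0 C)).repr (cl A) i : ℤ) : ℝ) :=
      (Int.floor_le _).trans h5.1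
    exact_mod_cast h6
  · have h6 : (((Module.Free.chooseBasis ℤ (K0 C)).repr (cl A) i : ℤ) : ℝ) ≤
        ((⌈|c i| * R⌉ : ℤ) : ℝ) := h5.2.trans (Int.le_ceil _)
    exact_mod_cast h6

end MP_14a437_ag
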