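import Pool.Agent.Work.MP_14a437_ag.G.Near2

/-!
# G/Transfer  (M) : estimates on semistable objects pass to a nearby stability condition

`E ∈ τ.P ψ` has σ-phases in `[ψ-ε, ψ+ε]` (`Near.symm`, `Near.P_subset`).  For `X ∈ σ.P φ'`, `|φ'-ψ| ≤ ε`,
`r = ‖σ.Z X‖`: `reZ τ.Z ψ (cl X) ≥ reZ σ.Z ψ (cl X) - sin(π ε) r = r cos(π(φ'-ψ)) - sin(π ε) r ≥ c₀ r`,
`c₀ = cos(π ε) - sin(π ε) > 0` (as `ε < 1/4`).  So `‖u (cl X)‖ ≤ κ r ≤ (κ / c₀) reZ τ.Z ψ (cl X)`; sum over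
the σ-HN factors of `E` (`PS_norm_le` with the functional `(κ/c₀) • reZ τ.Z ψ`); finally
`reZ τ.Z ψ (cl E) = ‖τ.Z (cl E)‖` (`reZ_of_P` with `α = φ = ψ`).
-/

open CategoryTheory CategoryTheory.Limits CategoryTheory.Pretriangulated

universe v u

namespace MP_14a437_ag

variable {C : Type u} [Category.{v} C] [Preadditive C] [HasZeroObject C] [HasShift C ℤ]
  [∀ n : ℤ, (shiftFunctor C n).Additive] [Pretriangulated C] [IsTriangulated C]

theorem transfer (σ τ : PreStab C) {ε : ℝ} (hε0 : 0 ≤ ε) (hε : ε < 1 / 4)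
    (hn : Near σ.toSlicing τ.toSlicing ε)
    (hle : ∀ (φ : ℝ) (E : C), σ.P φ E →
      ‖τ.Z (cl E) - σ.Z (cl E)‖ ≤ Real.sin (Real.pi * ε) * ‖σ.Z (cl E)‖)
    (u : K0 C →+ ℂ) {κ : ℝ} (hκ : 0 ≤ κ)
    (hu : ∀ (φ : ℝ) (E : C), σ.P φ E → ‖u (cl E)‖ ≤ κ * ‖σ.Z (cl E)‖) {ψ : ℝ} {E : C}
    (hE : τ.P ψ E) :
    ‖u (cl E)‖ ≤ κ / (Real.cos (Real.pi * ε) - Real.sin (Real.pi * ε)) * ‖τ.Z (cl E)‖ := by
  have hπ := Real.pi_pos
  have hs0 : 0 ≤ Real.sin (Real.pi * ε) :=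
    Real.sin_nonneg_of_nonneg_of_le_pi (by positivity) (by nlinarith)
  have hcs : 0 < Real.cos (Real.pi * ε) - Real.sin (Real.pi * ε) := by
    have h1 : Real.sin (Real.pi * ε) < Real.sin (Real.pi / 2 - Real.pi * ε) :=
      Real.sin_lt_sin_of_lt_of_le_pi_div_two (by nlinarith) (by nlinarith) (by nlinarith)
    rw [Real.sin_pi_div_two_sub] at h1
    linarith
  set c₀ : ℝ := Real.cos (Real.pi * ε) - Real.sin (Real.pi * ε) with hc₀
  have hPS : σ.PS (Set.Icc (ψ - ε) (ψ + ε)) E := (hn.symm).P_subset hE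
  have hkey : ‖u (cl E)‖ ≤ ((AddMonoidHom.mulLeft (κ / c₀)).comp (reZ τ.Z ψ)) (cl E) := by
    refine PS_norm_le σ.toSlicing u _ ?_ hPS
    intro φ' hφ' X hX
    show ‖u (cl X)‖ ≤ κ / c₀ * reZ τ.Z ψ (cl X)
    have h1 := hu φ' X hX
    have h2 := hle φ' X hX
    have h3 : reZ τ.Z ψ (cl X) = reZ σ.Z ψ (cl X) +
        (Complex.exp (-(Real.pi * ψ * Complex.I)) * (τ.Z (cl X) - σ.Z (cl X))).re := by
      show (Complex.exp (-(Real.pi * ψ * Complex.I)) * τ.Z (cl X)).re =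
        (Complex.exp (-(Real.pi * ψ * Complex.I)) * σ.Z (cl X)).re + _
      rw [← Complex.add_re]
      congr 1
      ring
    have h4 : -‖τ.Z (cl X) - σ.Z (cl X)‖ ≤
        (Complex.exp (-(Real.pi * ψ * Complex.I)) * (τ.Z (cl X) - σ.Z (cl X))).re := by
      have h5 : ‖Complex.exp (-(Real.pi * ψ * Complex.I)) * (τ.Z (cl X) - σ.Z (cl X))‖ =
          ‖τ.Z (cl X) - σ.Z (cl X)‖ := by
        rw [norm_mul, show (-(Real.pi * ψ * Complex.I) : ℂ) =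
          ((-(Real.pi * ψ) : ℝ) : ℂ) * Complex.I by push_cast; ring,
          Complex.norm_exp_ofReal_mul_I, one_mul]
      rw [← h5]
      exact neg_le_of_abs_le (Complex.abs_re_le_norm _)
    have h6 : Real.cos (Real.pi * ε) ≤ Real.cos (Real.pi * (φ' - ψ)) := by
      rw [← Real.cos_abs (Real.pi * (φ' - ψ))]
      have h7 : |φ' - ψ| ≤ ε := by
        rw [abs_le]; constructor <;> linarith [hφ'.1, hφ'.2]
      have h8 : |Real.pi * (φ' - ψ)| ≤ Real.pi * ε := by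
        rw [abs_mul, abs_of_pos hπ]
        exact mul_le_mul_of_nonneg_left h7 hπ.le
      exact Real.cos_le_cos_of_nonneg_of_le_pi (abs_nonneg _) (by nlinarith) h8
    have h9 : c₀ * ‖σ.Z (cl X)‖ ≤ reZ τ.Z ψ (cl X) := by
      rw [h3, reZ_of_P σ ψ hX]
      have h10 := mul_le_mul_of_nonneg_left h6 (norm_nonneg (σ.Z (cl X)))
      rw [hc₀]
      nlinarith
    have h11 : 0 ≤ κ / c₀ := by positivity
    calc ‖u (cl X)‖ ≤ κ * ‖σ.Z (cl X)‖ := h1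
      _ = κ / c₀ * (c₀ * ‖σ.Z (cl X)‖) := by field_simp
      _ ≤ _ := mul_le_mul_of_nonneg_left h9 h11
  refine hkey.trans (le_of_eq ?_)
  show κ / c₀ * reZ τ.Z ψ (cl E) = _
  rw [reZ_of_P τ ψ hE, sub_self, mul_zero, Real.cos_zero, mul_one]

end MP_14a437_ag
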