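import Pool.Agent.Work.MP_14a437_ag.G.Slic
import Pool.Agent.Work.MP_14a437_ag.G.Transfer
import Pool.Agent.Work.MP_14a437_ag.G.FinPos
import Pool.Agent.Work.MP_14a437_ag.G.FinW

/-!
# G/Deform  (S-M) : deformation of the real part of the central charge

`η = sin(π ε) < 1`.  `IsStabFun (σ.heart 0) W` by `pos_of_near`, `fin_of_near`; `exists_preStab` gives `τ`;
`near_of_heart` (for `σ.toPre`, `τ`) gives `Near`; the support property of `τ` for a functional `l` follows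
from `transfer` with `u = (l : ℂ)` (compose with `Complex.ofRealHom`), `κ = max c 0`, `c` the constant of
`σ.support l`.
-/

open CategoryTheory CategoryTheory.Limits CategoryTheory.Pretriangulated

universe v u

namespace MP_14a437_ag

variable {C : Type u} [Category.{v} C] [Preadditive C] [HasZeroObject C] [HasShift C ℤ]
  [∀ n : ℤ, (shiftFunctor C n).Additive] [Pretriangulated C] [IsTriangulated C]

theorem deform0 [Module.Free ℤ (K0 C)] [Module.Finite ℤ (K0 C)] (σ : StabCond C)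
    (W : K0 C →+ ℂ) (hIm : ∀ x, (W x).im = (σ.Z x).im) {ε : ℝ} (hε0 : 0 ≤ ε) (hε : ε < 1 / 4)
    (hle : ∀ (φ : ℝ) (E : C), σ.P φ E →
      ‖W (cl E) - σ.Z (cl E)‖ ≤ Real.sin (Real.pi * ε) * ‖σ.Z (cl E)‖) :
    ∃ τ : StabCond C, τ.Z = W ∧ (∀ E : C, τ.heart 0 E ↔ σ.heart 0 E) ∧
      Near σ.toSlicing τ.toSlicing ε := by
  have hπ := Real.pi_pos
  have hs0 : 0 ≤ Real.sin (Real.pi * ε) :=
    Real.sin_nonneg_of_nonneg_of_le_pi (by positivity) (by nlinarith)
  have hs1 : Real.sin (Real.pi * ε) < 1 := by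
    rw [← Real.sin_pi_div_two]
    exact Real.sin_lt_sin_of_lt_of_le_pi_div_two (by nlinarith) le_rfl (by nlinarith)
  have hW : IsStabFun (σ.heart 0) W :=
    ⟨fun E hE h0 => pos_of_near σ.toPre W hIm hs1 hle hE h0,
      fun E M hE => fin_of_near σ W hs0 hs1 hle hE M⟩
  obtain ⟨τ, hZ, -, hH⟩ := exists_preStab σ.toSlicing hW
  have hle' : ∀ (φ : ℝ) (E : C), σ.toPre.P φ E →
      ‖τ.Z (cl E) - σ.toPre.Z (cl E)‖ ≤ Real.sin (Real.pi * ε) * ‖σ.toPre.Z (cl E)‖ := by
    intro φ E hE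
    rw [hZ]
    exact hle φ E hE
  have hn : Near σ.toPre.toSlicing τ.toSlicing ε :=
    near_of_heart σ.toPre τ (fun E => (hH E).symm) (by
      intro x
      rw [hZ]
      exact hIm x) hε0 hle'
  have hsupp : ∀ l : K0 C →+ ℝ, ∃ c : ℝ, ∀ (φ : ℝ) (E : C), τ.P φ E →
      |l (cl E)| ≤ c * ‖τ.Z (cl E)‖ := by
    intro l
    obtain ⟨c, hc⟩ := σ.support l
    refine ⟨max c 0 / (Real.cos (Real.pi * ε) - Real.sin (Real.pi * ε)), fun ψ E hE => ?_⟩
    have h1 := transfer σ.toPre τ hε0 hε hn hle'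
      ((Complex.ofRealHom : ℝ →+* ℂ).toAddMonoidHom.comp l) (κ := max c 0) (le_max_right _ _) (by
        intro φ X hX
        show ‖((l (cl X) : ℝ) : ℂ)‖ ≤ _
        rw [Complex.norm_real, Real.norm_eq_abs]
        exact (hc φ X hX).trans (mul_le_mul_of_nonneg_right (le_max_left _ _) (norm_nonneg _))) hE
    have h2 : ‖((l (cl E) : ℝ) : ℂ)‖ ≤
        max c 0 / (Real.cos (Real.pi * ε) - Real.sin (Real.pi * ε)) * ‖τ.Z (cl E)‖ := h1
    rwa [Complex.norm_real, Real.norm_eq_abs] at h2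
  exact ⟨{ τ.toSlicing with Z := τ.Z, compat := τ.compat, support := hsupp }, hZ, hH, hn⟩

end MP_14a437_ag
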