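import Pool.Agent.Work.MP_14a437_ag.K.Basic
import Pool.Agent.Work.MP_14a437_ag.S.AdmH

/-!
# G/Defs : definitions for the deformation of stability conditions  (FIXED)
-/

open CategoryTheory CategoryTheory.Limits CategoryTheory.Pretriangulated

universe v u

namespace MP_14a437_ag

variable {C : Type u} [Category.{v} C] [Preadditive C] [HasZeroObject C] [HasShift C ℤ]
  [∀ n : ℤ, (shiftFunctor C n).Additive] [Pretriangulated C]

variable (C) in
/-- A stability condition without the support property. -/
structure PreStab extends Slicing C where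
  /-- the central charge -/
  Z : K0 C →+ ℂ
  compat : ∀ (φ : ℝ) (E : C), P φ E → ¬ IsZero E →
    ∃ m : ℝ, 0 < m ∧ Z (cl E) = m * Complex.exp (Real.pi * φ * Complex.I)

/-- forget the support property -/
def StabCond.toPre (σ : StabCond C) : PreStab C := { σ.toSlicing with Z := σ.Z, compat := σ.compat }

/-- `cr z w = Im (conj z * w)`; for `z, w` in the upper half plane it is `≥ 0` iff `arg z ≤ arg w` -/
noncomputable def cr (z w : ℂ) : ℝ := (starRingEnd ℂ z * w).im

/-- the half open upper half plane: `Im z > 0`, or `z` real and negative -/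
def UH : Set ℂ := {z | 0 < z.im ∨ (z.im = 0 ∧ z.re < 0)}

/-- `A → E → B` is a short exact sequence of the subcategory `H`: a distinguished triangle with all
objects in `H`. -/
def SES (H : ObjectProperty C) (A E B : C) : Prop :=
  H A ∧ H E ∧ H B ∧ ∃ (f : A ⟶ E) (g : E ⟶ B) (h : B ⟶ A⟦(1 : ℤ)⟧),
    Triangle.mk f g h ∈ distTriang C

/-- `E` in `H` is semistable for the stability function `W` on `H` (zero objects are allowed). -/
def Wss (H : ObjectProperty C) (W : K0 C →+ ℂ) (E : C) : Prop :=
  H E ∧ ∀ A B : C, SES H A E B → cr (W (cl E)) (W (cl A)) ≤ 0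

/-- the classes of nonzero subobjects of `E` whose phase is at least that of `E` -/
def SE (H : ObjectProperty C) (W : K0 C →+ ℂ) (E : C) : Set (K0 C) :=
  {x | ∃ A B : C, SES H A E B ∧ ¬ IsZero A ∧ cl A = x ∧ 0 ≤ cr (W (cl E)) (W x)}

/-- the semistable objects of phase `φ` of the stability function `W` on `H`:
for `φ ∈ (n, n+1]` the shifts by `n` of the semistable objects of `H` with `arg W = π (φ - n)`. -/
def QP (H : ObjectProperty C) (W : K0 C →+ ℂ) (φ : ℝ) : ObjectProperty C := fun E =>
  Wss H W (E⟦(-(⌈φ⌉ - 1) : ℤ)⟧) ∧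
    (¬ IsZero E → (W (cl (E⟦(-(⌈φ⌉ - 1) : ℤ)⟧))).arg = Real.pi * (φ - (⌈φ⌉ - 1)))

/-- `W` is a stability function on `H` with the finiteness property that the classes of the
subobjects `A` of a fixed object with `Re W(A) ≤ M` are finite in number. -/
structure IsStabFun (H : ObjectProperty C) (W : K0 C →+ ℂ) : Prop where
  pos : ∀ E : C, H E → ¬ IsZero E → W (cl E) ∈ UH
  fin : ∀ (E : C) (M : ℝ), H E →
    {x : K0 C | ∃ A B : C, SES H A E B ∧ cl A = x ∧ (W x).re ≤ M}.Finite

end MP_14a437_ag
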