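import Pool.Agent.Work.MP_14a437_ag.G.Sub
import Pool.Agent.Work.MP_14a437_ag.G.Cr

/-!
# G/Fin0  (S-M) : the set `SE H W E` is finite

Let `e = W(E)`, `x = W(A)`, `A → E → B`.  `Im x ≥ 0`, `Im W(B) ≥ 0` (zero object: `W = 0`; else `UH`), so
`0 ≤ Im x ≤ Im e`.  If `Im e > 0`: `Im e * Re x ≤ Re e * Im x ≤ |Re e| Im e`, so `Re x ≤ |Re e|`.  If
`Im e = 0` then `Im x = 0`, so `Re x < 0`.  Apply `IsStabFun.fin` with `M = |Re e|`.
-/

open CategoryTheory CategoryTheory.Limits CategoryTheory.Pretriangulated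

universe v u

namespace MP_14a437_ag

variable {C : Type u} [Category.{v} C] [Preadditive C] [HasZeroObject C] [HasShift C ℤ]
  [∀ n : ℤ, (shiftFunctor C n).Additive] [Pretriangulated C] [IsTriangulated C]

theorem SE_finite {H : ObjectProperty C} (hH : IsAdm H) {W : K0 C →+ ℂ} (hW : IsStabFun H W)
    {E : C} (hE : H E) : (SE H W E).Finite := by
  refine (hW.fin E |(W (cl E)).re| hE).subset ?_
  rintro x ⟨A, B, hs, hA0, rfl, hcr⟩
  refine ⟨A, B, hs, rfl, ?_⟩
  have hcl : W (cl E) = W (cl A) + W (cl B) := by rw [SES_cl hs, map_add]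
  have hA := hW.pos A hs.1 hA0
  have hAim : 0 ≤ (W (cl A)).im := UH_im_nonneg hA
  have hBim : 0 ≤ (W (cl B)).im := by
    by_cases hB0 : IsZero B
    · rw [cl_zero hB0, map_zero]
      simp
    · exact UH_im_nonneg (hW.pos B hs.2.2.1 hB0)
  have him : (W (cl E)).im = (W (cl A)).im + (W (cl B)).im := by rw [hcl, Complex.add_im]
  rw [cr_eq] at hcr
  have h1 : (W (cl E)).re ≤ |(W (cl E)).re| := le_abs_self _
  have h0 : 0 ≤ |(W (cl E)).re| := abs_nonneg _
  generalize |(W (cl E)).re| = M at *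
  rcases (show (0 : ℝ) ≤ (W (cl E)).im by rw [him]; linarith).lt_or_eq with h | h
  · have h2 : (W (cl E)).im * (W (cl A)).re ≤ (W (cl E)).im * M := by
      have h3 : (W (cl E)).re * (W (cl A)).im ≤ M * (W (cl A)).im :=
        mul_le_mul_of_nonneg_right h1 hAim
      have h4 : M * (W (cl A)).im ≤ M * (W (cl E)).im :=
        mul_le_mul_of_nonneg_left (by rw [him]; linarith) h0
      linarith
    exact le_of_mul_le_mul_left h2 h
  · have h5 : (W (cl A)).im = 0 := by
      have := him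
      rw [← h] at this
      linarith
    rcases hA with h6 | ⟨_, h6⟩
    · exact absurd h5 h6.ne'
    · linarith

end MP_14a437_ag
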