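import Pool.Agent.Work.MP_14a437_ag.G.Defs

/-!
# G/QPb  (M) : basic properties of `QP`

`Wss_iso`: isomorphic objects have the same classes (`cl_iso`) and the same subobjects
(`isomorphic_distinguished`).
`QP_iff`: for `0 < φ ≤ 1`, `⌈φ⌉ - 1 = 0` and `E⟦-0⟧ ≅ E`.
`QP_shift`: `⌈φ+1⌉ - 1 = (⌈φ⌉ - 1) + 1` and `(X⟦1⟧)⟦-(n+1)⟧ ≅ X⟦-n⟧`.
`QP_mem_heart`: `QP H W φ E → H (E⟦-(⌈φ⌉-1)⟧)`.
-/

open CategoryTheory CategoryTheory.Limits CategoryTheory.Pretriangulated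

universe v u

namespace MP_14a437_ag

variable {C : Type u} [Category.{v} C] [Preadditive C] [HasZeroObject C] [HasShift C ℤ]
  [∀ n : ℤ, (shiftFunctor C n).Additive] [Pretriangulated C] [IsTriangulated C]

omit [IsTriangulated C] in
theorem Wss_iso {H : ObjectProperty C} (hH : IsAdm H) {W : K0 C →+ ℂ} {E E' : C} (e : E ≅ E')
    (h : Wss H W E) : Wss H W E' := by
  refine ⟨hH.iso.of_iso e h.1, ?_⟩
  rintro A B ⟨hA, _, hB, f, g, d, hT⟩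
  rw [← cl_iso e]
  refine h.2 A B ⟨hA, h.1, hB, f ≫ e.inv, e.hom ≫ g, d, ?_⟩
  refine isomorphic_distinguished _ hT _ ?_
  refine Triangle.isoMk _ _ (Iso.refl _) e (Iso.refl _) ?_ ?_ ?_
  · change (f ≫ e.inv) ≫ e.hom = 𝟙 _ ≫ f
    rw [Category.assoc, e.inv_hom_id, Category.comp_id, Category.id_comp]
  · change (e.hom ≫ g) ≫ 𝟙 _ = e.hom ≫ g
    rw [Category.comp_id]
  · change d ≫ (shiftFunctor C (1 : ℤ)).map (𝟙 _) = 𝟙 _ ≫ d
    rw [CategoryTheory.Functor.map_id, Category.comp_id, Category.id_comp]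

omit [IsTriangulated C] in
private theorem qpb_zs (X : C) (n : ℤ) : IsZero (X⟦n⟧) ↔ IsZero X := by
  have _ := contractible_distinguished X
  exact ⟨fun hX => ((shiftFunctor C (-n)).map_isZero hX).of_iso (shiftShiftNeg X n).symm,
    fun hX => (shiftFunctor C n).map_isZero hX⟩

omit [IsTriangulated C] in
private theorem qpb_aux {H : ObjectProperty C} (hH : IsAdm H) {W : K0 C →+ ℂ} {Y Y' E E' : C}
    (e : Y ≅ Y') (hz : IsZero E → IsZero E') {r r' : ℝ} (hr : r = r')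
    (h : Wss H W Y ∧ (¬ IsZero E → (W (cl Y)).arg = r)) :
    Wss H W Y' ∧ (¬ IsZero E' → (W (cl Y')).arg = r') := by
  refine ⟨Wss_iso hH e h.1, fun h0 => ?_⟩
  rw [← cl_iso e, ← hr]
  exact h.2 fun h1 => h0 (hz h1)

omit [IsTriangulated C] in
theorem QP_iso {H : ObjectProperty C} (hH : IsAdm H) {W : K0 C →+ ℂ} {φ : ℝ} {E E' : C}
    (e : E ≅ E') (h : QP H W φ E) : QP H W φ E' := by
  unfold QP at h ⊢
  exact qpb_aux hH ((shiftFunctor C (-(⌈φ⌉ - 1) : ℤ)).mapIso e) (fun h1 => h1.of_iso e.symm) rfl h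

omit [IsTriangulated C] in
theorem QP_zero {H : ObjectProperty C} (hH : IsAdm H) (W : K0 C →+ ℂ) (φ : ℝ) {E : C}
    (h : IsZero E) : QP H W φ E := by
  unfold QP
  have h1 : IsZero (E⟦(-(⌈φ⌉ - 1) : ℤ)⟧) := (qpb_zs E _).2 h
  refine ⟨⟨hH.zero _ h1, fun A B _ => ?_⟩, fun h0 => absurd h h0⟩
  rw [cl_zero h1, map_zero]
  unfold cr
  simp

omit [IsTriangulated C] in
theorem QP_iff {H : ObjectProperty C} (hH : IsAdm H) {W : K0 C →+ ℂ} {φ : ℝ} (h0 : 0 < φ)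
    (h1 : φ ≤ 1) (E : C) :
    QP H W φ E ↔ Wss H W E ∧ (¬ IsZero E → (W (cl E)).arg = Real.pi * φ) := by
  have hc : ⌈φ⌉ = 1 := by
    rw [Int.ceil_eq_iff]
    push_cast
    constructor <;> linarith
  have hn : (-(⌈φ⌉ - 1) : ℤ) = 0 := by rw [hc]; rfl
  have hr : Real.pi * (φ - (⌈φ⌉ - 1)) = Real.pi * φ := by
    rw [hc]
    push_cast
    ring
  have e : E⟦(-(⌈φ⌉ - 1) : ℤ)⟧ ≅ E := by
    rw [hn]
    exact (shiftFunctorZero C ℤ).app E
  unfold QP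
  exact ⟨fun h => qpb_aux hH e id hr h, fun h => qpb_aux hH e.symm id hr.symm h⟩

omit [IsTriangulated C] in
theorem QP_shiftn {H : ObjectProperty C} (hH : IsAdm H) {W : K0 C →+ ℂ} (φ : ℝ) (X : C) (n : ℤ) :
    QP H W (φ + n) (X⟦n⟧) ↔ QP H W φ X := by
  have hc : ⌈φ + n⌉ = ⌈φ⌉ + n := Int.ceil_add_intCast φ n
  have hr : Real.pi * (φ + n - (⌈φ + n⌉ - 1)) = Real.pi * (φ - (⌈φ⌉ - 1)) := by
    rw [hc]
    push_cast
    ring
  have e : X⟦(-(⌈φ⌉ - 1) : ℤ)⟧ ≅ (X⟦n⟧)⟦(-(⌈φ + n⌉ - 1) : ℤ)⟧ :=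
    (shiftFunctorAdd' C n (-(⌈φ + n⌉ - 1)) (-(⌈φ⌉ - 1)) (by rw [hc]; ring)).app X
  unfold QP
  exact ⟨fun h => qpb_aux hH e.symm (qpb_zs X n).1 hr h,
    fun h => qpb_aux hH e (qpb_zs X n).2 hr.symm h⟩

omit [IsTriangulated C] in
theorem QP_shift {H : ObjectProperty C} (hH : IsAdm H) {W : K0 C →+ ℂ} (φ : ℝ) (X : C) :
    QP H W (φ + 1) (X⟦(1 : ℤ)⟧) ↔ QP H W φ X := by
  have h := QP_shiftn hH (W := W) φ X 1
  rwa [Int.cast_one] at h

omit [IsTriangulated C] in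
/-- shift of HN filtrations for any family `P` compatible with shifts -/
theorem hn_shift_gen {P : ℝ → ObjectProperty C} (n : ℤ)
    (hP : ∀ (φ : ℝ) (X : C), P φ X → P (φ + n) (X⟦n⟧)) {E : C} {l : List ℝ} (h : HN P E l) :
    HN P (E⟦n⟧) (l.map (fun φ => φ + n)) := by
  induction h with
  | zero h => exact HN.zero ((qpb_zs _ n).2 h)
  | cons f g h hT hE' hA hA0 hl ih =>
    have hT' := Triangle.shift_distinguished _ hT n
    refine HN.cons _ _ _ hT' ih (hP _ _ hA) (fun h0 => hA0 ((qpb_zs _ n).1 h0)) ?_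
    intro ψ hψ
    obtain ⟨χ, hχ, rfl⟩ := List.mem_map.1 hψ
    have := hl χ hχ
    simpa using this

end MP_14a437_ag
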