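import Pool.Agent.Work.MP_14a437_ag.G.Max
import Pool.Agent.Work.MP_14a437_ag.G.Count
import Pool.Agent.Work.MP_14a437_ag.G.QPb
import Pool.Agent.Work.MP_14a437_ag.G.Append

/-!
# G/HNH  (M-L) : Harder-Narasimhan filtrations in the heart

Strong induction on `(SE H W E).ncard`.  `E` zero: `l = []`.  Otherwise let `A → E → B` be as in
`exists_max`, `φ = arg W(A) / π ∈ (0, 1]` (`UH_arg_pos`, `Complex.arg_le_pi`), so `A ∈ QP φ` (`QP_iff`) and
`HN (QP H W) A [φ]` (`HN.cons` with a zero object, see `hn_single`).  If `B` is zero then `E ≅ A`.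
If `B` is nonzero then `arg W(B) < arg W(A)` (property (3) of `exists_max` for `B' = B`, `SES_self`), so
`SE_card_lt` and induction give `HN (QP H W) B l'`, where every `ψ ∈ l'` has `π ψ ≤ arg W(B')` for a
nonzero subobject `B'` of `B`, so `ψ < φ`.  `hn_append`: `HN (QP H W) E (l' ++ [φ])`; for every member `ψ` the
nonzero subobject `A` has `π ψ ≤ π φ = arg W(A)`.
-/

open CategoryTheory CategoryTheory.Limits CategoryTheory.Pretriangulated

universe v u

namespace MP_14a437_ag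

variable {C : Type u} [Category.{v} C] [Preadditive C] [HasZeroObject C] [HasShift C ℤ]
  [∀ n : ℤ, (shiftFunctor C n).Additive] [Pretriangulated C] [IsTriangulated C]

theorem hn_heart {H : ObjectProperty C} (hH : IsAdm H) {W : K0 C →+ ℂ} (hW : IsStabFun H W)
    (E : C) (hE : H E) : ∃ l : List ℝ, HN (QP H W) E l ∧ ∀ ψ ∈ l, 0 < ψ ∧ ψ ≤ 1 ∧
      ∃ A B : C, SES H A E B ∧ ¬ IsZero A ∧ Real.pi * ψ ≤ (W (cl A)).arg := by
  induction hn : (SE H W E).ncard using Nat.strong_induction_on generalizing E with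
  | _ n ih =>
    subst hn
    by_cases h0 : IsZero E
    · exact ⟨[], HN.zero h0, by simp⟩
    obtain ⟨A, B, hS, hA0, hAss, h1, h2⟩ := exists_max hH hW hE h0
    have hAH : H A := hS.1
    have hBH : H B := hS.2.2.1
    have hU : W (cl A) ∈ UH := hW.pos A hAH hA0
    have hpi : 0 < Real.pi := Real.pi_pos
    obtain ⟨φ, hφ⟩ : ∃ φ : ℝ, Real.pi * φ = (W (cl A)).arg :=
      ⟨(W (cl A)).arg / Real.pi, by field_simp⟩
    have hφ0 : 0 < φ := by
      have h3 := UH_arg_pos hU
      rw [← hφ] at h3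
      by_contra h4
      have h5 := mul_nonpos_of_nonneg_of_nonpos hpi.le (not_lt.1 h4)
      linarith
    have hφ1 : φ ≤ 1 := by
      have h3 := Complex.arg_le_pi (W (cl A))
      rw [← hφ] at h3
      by_contra h4
      have h5 := mul_lt_mul_of_pos_left (not_le.1 h4) hpi
      linarith
    have hQ : QP H W φ A := (QP_iff hH hφ0 hφ1 A).2 ⟨hAss, fun _ => hφ.symm⟩
    have hNA : HN (QP H W) A [φ] := by
      open ZeroObject in
      exact HN.cons (0 : (0 : C) ⟶ A) (𝟙 A) 0 (contractible_distinguished₁ A)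
        (HN.zero (isZero_zero C)) hQ hA0 (by simp)
    obtain ⟨l', hl', hp⟩ : ∃ l : List ℝ, HN (QP H W) B l ∧ ∀ ψ ∈ l, 0 < ψ ∧ ψ < φ := by
      by_cases hB0 : IsZero B
      · exact ⟨[], HN.zero hB0, by simp⟩
      · obtain ⟨Z, -, hZ⟩ := SES_self hH hBH
        have h3 := h2 B Z hZ hB0
        obtain ⟨l, hl, hp⟩ := ih _ (SE_card_lt hH hW hS hA0 hB0 h3) B hBH rfl
        refine ⟨l, hl, fun ψ hψ => ?_⟩
        obtain ⟨h4, -, A', B', h5, h6, h7⟩ := hp ψ hψ
        refine ⟨h4, ?_⟩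
        have h8 := h2 A' B' h5 h6
        rw [← hφ] at h8
        exact lt_of_mul_lt_mul_left (lt_of_le_of_lt h7 h8) hpi.le
    obtain ⟨-, -, -, f, g, h, hT⟩ := id hS
    refine ⟨l' ++ [φ], hn_append f g h hT hNA hl' ?_, ?_⟩
    · intro ψ hψ χ hχ
      rw [List.mem_singleton] at hχ
      rw [hχ]
      exact (hp ψ hψ).2
    · intro ψ hψ
      rcases List.mem_append.1 hψ with h3 | h3
      · obtain ⟨h4, h5⟩ := hp ψ h3
        refine ⟨h4, by linarith, A, B, hS, hA0, ?_⟩
        rw [← hφ]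
        exact mul_le_mul_of_nonneg_left h5.le hpi.le
      · rw [List.mem_singleton] at h3
        rw [h3]
        exact ⟨hφ0, hφ1, A, B, hS, hA0, hφ.le⟩

end MP_14a437_ag
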