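import Pool.Agent.Work.MP_14a437_ag.G.Image
import Pool.Agent.Work.MP_14a437_ag.G.Sub
import Pool.Agent.Work.MP_14a437_ag.G.Cr

/-!
# G/Hom0  (M) : no morphisms from larger to smaller phase

`Wss_hom_zero`: if `X` or `Y` is zero this is clear.  Otherwise let `K → X -p-> I`, `I -i-> Y → R` be the
factorization of `f` (`exists_image`).  If `I` is zero, `f = 0`.  Otherwise `W I ∈ UH`, and
`cr (W X) (W I) = - cr (W X) (W K) ≥ 0` (`X` semistable, `W X = W K + W I`), `cr (W Y) (W I) ≤ 0`, so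
`arg W X ≤ arg W I ≤ arg W Y` (`cr_nonneg_iff`), a contradiction.
-/

open CategoryTheory CategoryTheory.Limits CategoryTheory.Pretriangulated

universe v u

namespace MP_14a437_ag

variable {C : Type u} [Category.{v} C] [Preadditive C] [HasZeroObject C] [HasShift C ℤ]
  [∀ n : ℤ, (shiftFunctor C n).Additive] [Pretriangulated C] [IsTriangulated C]

theorem Wss_hom_zero {H : ObjectProperty C} (hH : IsAdm H) {W : K0 C →+ ℂ} (hW : IsStabFun H W)
    {X Y : C} (hX : Wss H W X) (hY : Wss H W Y) (h : (W (cl Y)).arg < (W (cl X)).arg)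
    (f : X ⟶ Y) : f = 0 := by
  by_cases hX0 : IsZero X
  · exact hX0.eq_of_src f 0
  by_cases hY0 : IsZero Y
  · exact hY0.eq_of_tgt f 0
  obtain ⟨K, I, R, p, i, hpi, hK, hI, hR, ⟨a, c, h1⟩, ⟨q, d, h2⟩⟩ := exists_image hH hX.1 hY.1 f
  by_cases hI0 : IsZero I
  · rw [← hpi, hI0.eq_of_src i 0, comp_zero]
  exfalso
  have hWX := hW.pos X hX.1 hX0
  have hWY := hW.pos Y hY.1 hY0
  have hWI := hW.pos I hI hI0
  have s1 : SES H K X I := ⟨hK, hX.1, hI, a, p, c, h1⟩
  have s2 : SES H I Y R := ⟨hI, hY.1, hR, i, q, d, h2⟩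
  have e1 := hX.2 K I s1
  have e2 := hY.2 I R s2
  have e3 : W (cl X) = W (cl K) + W (cl I) := by
    rw [SES_cl s1, map_add]
  have e4 : cr (W (cl X)) (W (cl X)) = cr (W (cl X)) (W (cl K)) + cr (W (cl X)) (W (cl I)) := by
    rw [← cr_add_right, ← e3]
  rw [cr_self] at e4
  have e5 : 0 ≤ cr (W (cl X)) (W (cl I)) := by linarith
  have e6 : 0 ≤ cr (W (cl I)) (W (cl Y)) := by
    rw [cr_symm]
    linarith
  have e7 := (cr_nonneg_iff hWX hWI).1 e5
  have e8 := (cr_nonneg_iff hWI hWY).1 e6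
  linarith

end MP_14a437_ag
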