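import Pool.Agent.Work.MP_14a437_ag.G.Defs

/-!
# G/Image : image factorization in an admissible abelian subcategory (helper40's argument from A/Schur)
-/

open CategoryTheory CategoryTheory.Limits CategoryTheory.Pretriangulated

universe v u

namespace MP_14a437_ag

variable {C : Type u} [Category.{v} C] [Preadditive C] [HasZeroObject C] [HasShift C ℤ]
  [∀ n : ℤ, (shiftFunctor C n).Additive] [Pretriangulated C] [IsTriangulated C]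

private theorem hom_pos' {H : ObjectProperty C} (hH : IsAdm H) {X Y : C} (hX : H X) (hY : H Y)
    {n : ℤ} (hn : 0 < n) (f : X⟦n⟧ ⟶ Y) : f = 0 := by
  apply (shiftFunctor C (-n)).map_injective
  rw [Functor.map_zero]
  have h1 : (shiftFunctorCompIsoId C n (-n) (by omega)).inv.app X ≫ f⟦-n⟧' = 0 :=
    hH.hom_neg X Y (-n) (by omega) hX hY _
  exact (Preadditive.IsIso.comp_left_eq_zero _ _).1 h1

private theorem hom_two' {H : ObjectProperty C} (hH : IsAdm H) {X Y : C} (hX : H X) (hY : H Y)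
    (f : (X⟦(1 : ℤ)⟧)⟦(1 : ℤ)⟧ ⟶ Y) : f = 0 := by
  have h1 : (shiftFunctorAdd' C (1 : ℤ) 1 2 (by norm_num)).hom.app X ≫ f = 0 :=
    hom_pos' hH hX hY (by norm_num) _
  exact (Preadditive.IsIso.comp_left_eq_zero _ _).1 h1

private theorem zero_of_shift' {X : C} (h : (𝟙 (X⟦(1 : ℤ)⟧) : X⟦(1 : ℤ)⟧ ⟶ X⟦(1 : ℤ)⟧) = 0) :
    IsZero X := by
  rw [IsZero.iff_id_eq_zero]
  apply (shiftFunctor C (1 : ℤ)).map_injective
  rw [CategoryTheory.Functor.map_id, Functor.map_zero]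
  exact h

/-- the image belongs to `H` -/
private theorem mid_mem' {H : ObjectProperty C} (hH : IsAdm H) {K S I T Q : C} {κ : K ⟶ S}
    {p : S ⟶ I} {q : I ⟶ K⟦(1 : ℤ)⟧} (h₁ : Triangle.mk κ p q ∈ distTriang C) {i : I ⟶ T}
    {π : T ⟶ Q} {δ : Q ⟶ I⟦(1 : ℤ)⟧} (h₂ : Triangle.mk i π δ ∈ distTriang C) (hK : H K)
    (hS : H S) (hT : H T) (hQ : H Q) : H I := by
  obtain ⟨K', Q', α, β, γ, h₃, hK', hQ'⟩ := hH.adm κ p q h₁ hK hS
  have hα : α = 0 := by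
    apply (shiftFunctor C (1 : ℤ)).map_injective
    rw [Functor.map_zero]
    have h4 : α ≫ i = 0 := hom_pos' hH hK' hT (by norm_num) _
    obtain ⟨g, hg⟩ := Triangle.coyoneda_exact₁ _ h₂ (α⟦(1 : ℤ)⟧') (by
      show α⟦(1 : ℤ)⟧' ≫ i⟦(1 : ℤ)⟧' = 0
      rw [← Functor.map_comp, h4, Functor.map_zero])
    have hg0 : g = 0 := hom_two' hH hK' hQ g
    refine hg.trans ?_
    rw [hg0]
    exact zero_comp
  have hz : IsZero (K'⟦(1 : ℤ)⟧) := by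
    apply zero_of_shift'
    obtain ⟨g, hg⟩ := Triangle.coyoneda_exact₁ _ h₃ (𝟙 ((K'⟦(1 : ℤ)⟧)⟦(1 : ℤ)⟧)) (by
      show 𝟙 _ ≫ α⟦(1 : ℤ)⟧' = 0
      rw [hα, Functor.map_zero, comp_zero])
    have hg0 : g = 0 := hom_two' hH hK' hQ' g
    refine hg.trans ?_
    rw [hg0]
    exact zero_comp
  have hβ : IsIso β := (Triangle.isZero₁_iff_isIso₂ _ h₃).1 hz
  have := hH.iso
  exact H.prop_of_iso (asIso β).symm hQ'

theorem exists_image {H : ObjectProperty C} (hH : IsAdm H) {X Y : C} (hX : H X) (hY : H Y)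
    (f : X ⟶ Y) : ∃ (K I R : C) (p : X ⟶ I) (i : I ⟶ Y), p ≫ i = f ∧ H K ∧ H I ∧ H R ∧
      (∃ (a : K ⟶ X) (c : I ⟶ K⟦(1 : ℤ)⟧), Triangle.mk a p c ∈ distTriang C) ∧
      (∃ (q : Y ⟶ R) (d : R ⟶ I⟦(1 : ℤ)⟧), Triangle.mk i q d ∈ distTriang C) := by
  obtain ⟨W, g, h, h₁⟩ := distinguished_cocone_triangle f
  obtain ⟨K, Q, α, β, γ, h₂, hK, hQ⟩ := hH.adm f g h h₁ hX hY
  obtain ⟨I, i, δ, h₃⟩ := distinguished_cocone_triangle₁ (g ≫ β)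
  obtain ⟨m₁, m₃, hf', -, -, -, hm⟩ :=
    Triangulated.someOctahedron' (rfl : g ≫ β = g ≫ β) h₁ h₂ h₃
  obtain ⟨κ, hκ⟩ : ∃ κ : K ⟶ X, -κ⟦(1 : ℤ)⟧' = α ≫ h := by
    obtain ⟨κ, hκ⟩ := (shiftFunctor C (1 : ℤ)).map_surjective (-(α ≫ h))
    exact ⟨κ, by rw [hκ, neg_neg]⟩
  have h₄ : Triangle.mk κ m₁ m₃ ∈ distTriang C := by
    rw [rotate_distinguished_triangle]
    show Triangle.mk m₁ m₃ (-κ⟦(1 : ℤ)⟧') ∈ distTriang C
    rw [hκ]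
    exact hm
  have hI : H I := mid_mem' hH h₄ h₃ hK hX hY hQ
  exact ⟨K, I, Q, m₁, i, hf', hK, hI, hQ, ⟨κ, m₃, h₄⟩, ⟨g ≫ β, δ, h₃⟩⟩

end MP_14a437_ag
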