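import Pool.Agent.Work.MP_14a437_ag.G.Fin0

/-!
# G/Max  (M-L) : the maximal destabilizing subobject

`SE H W E` is finite (`SE_finite`) and contains `cl E` (`SES_self`, `cr_self`).  Choose `x ∈ SE` with
`(arg W x, ‖W x‖)` lexicographically maximal, `x = cl A`, `A → E → B`.
(1) every nonzero subobject `A'` of `E` has `arg W(A') ≤ arg W(A)`: if `cl A' ∈ SE` by maximality,
otherwise `arg W(A') < arg W(E) ≤ arg W(A)` (`cr_nonneg_iff`).
(2) `A` is `Wss`: a subobject `A'` of `A` is one of `E` (`sub_trans`), so `arg W(A') ≤ arg W(A)`, i.e.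
`cr (W A) (W A') ≤ 0` (`cr_pos_iff`; trivial if `A'` is zero since then `W = 0`).
(3) a nonzero subobject `B'` of `B` has `arg W(B') < arg W(A)`: `sub_preimage` gives `A'` with `A ⊂ A' ⊂ E`,
`W(A') = W(A) + W(B')`.  If `arg W(B') ≥ arg W(A)` then `arg W(A') ≥ arg W(A)` (`le_arg_add`), so equal by
(1) and `cl A' ∈ SE`; then `cr (W A) (W B') = cr (W A) (W A') = 0`, so `W(B')` and `W(A)` have the same
argument and `‖W(A')‖ = ‖W(A)‖ + ‖W(B')‖ > ‖W(A)‖`, contradicting the choice of `A`.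
-/

open CategoryTheory CategoryTheory.Limits CategoryTheory.Pretriangulated

universe v u

namespace MP_14a437_ag

variable {C : Type u} [Category.{v} C] [Preadditive C] [HasZeroObject C] [HasShift C ℤ]
  [∀ n : ℤ, (shiftFunctor C n).Additive] [Pretriangulated C] [IsTriangulated C]

theorem exists_max {H : ObjectProperty C} (hH : IsAdm H) {W : K0 C →+ ℂ} (hW : IsStabFun H W)
    {E : C} (hE : H E) (h0 : ¬ IsZero E) :
    ∃ A B : C, SES H A E B ∧ ¬ IsZero A ∧ Wss H W A ∧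
      (∀ A' B' : C, SES H A' E B' → ¬ IsZero A' → (W (cl A')).arg ≤ (W (cl A)).arg) ∧
      (∀ B' B'' : C, SES H B' B B'' → ¬ IsZero B' → (W (cl B')).arg < (W (cl A)).arg) := by
  obtain ⟨Z, hZ, hEZ⟩ := SES_self hH hE
  have hEU : W (cl E) ∈ UH := hW.pos E hE h0
  have hne : (SE H W E).Nonempty := ⟨cl E, E, Z, hEZ, h0, rfl, (cr_self _).ge⟩
  obtain ⟨x, hx, hmax⟩ := Set.exists_max_image (SE H W E)
    (fun y => toLex ((W y).arg, ‖W y‖)) (SE_finite hH hW hE) hne
  obtain ⟨A, B, hAEB, hA0, rfl, hcr⟩ := hx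
  have hAU : W (cl A) ∈ UH := hW.pos A hAEB.1 hA0
  have hEA : (W (cl E)).arg ≤ (W (cl A)).arg := (cr_nonneg_iff hEU hAU).mp hcr
  have hmax' : ∀ y ∈ SE H W E, (W y).arg < (W (cl A)).arg ∨
      ((W y).arg = (W (cl A)).arg ∧ ‖W y‖ ≤ ‖W (cl A)‖) := by
    intro y hy
    have h1 := hmax y hy
    rw [Prod.Lex.toLex_le_toLex] at h1
    exact h1
  have h1 : ∀ A' B' : C, SES H A' E B' → ¬ IsZero A' → (W (cl A')).arg ≤ (W (cl A)).arg := by
    intro A' B' hs hA'
    have hU' : W (cl A') ∈ UH := hW.pos A' hs.1 hA'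
    by_cases h2 : 0 ≤ cr (W (cl E)) (W (cl A'))
    · rcases hmax' (cl A') ⟨A', B', hs, hA', rfl, h2⟩ with h3 | h3
      · exact h3.le
      · exact h3.1.le
    · rw [cr_nonneg_iff hEU hU', not_le] at h2
      exact h2.le.trans hEA
  refine ⟨A, B, hAEB, hA0, ⟨hAEB.1, ?_⟩, h1, ?_⟩
  · intro A' A'' hs
    by_cases hA' : IsZero A'
    · rw [cl_zero hA', map_zero, cr_eq]
      simp
    · have hU' : W (cl A') ∈ UH := hW.pos A' hs.1 hA'
      obtain ⟨B', hB', -⟩ := sub_trans hH hs hAEB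
      by_contra hcon
      rw [not_le, cr_pos_iff hAU hU'] at hcon
      exact absurd (h1 A' B' hB' hA') (not_le.mpr hcon)
  · intro B' B'' hs hB'
    by_contra hcon
    rw [not_lt] at hcon
    have hU' : W (cl B') ∈ UH := hW.pos B' hs.1 hB'
    obtain ⟨A', hA'E, hAA'⟩ := sub_preimage hH hAEB hs
    have hA'0 : ¬ IsZero A' := fun hz => hA0 (SES_isZero hH hAA' hz).1
    have hA'U : W (cl A') ∈ UH := hW.pos A' hA'E.1 hA'0
    have hadd : W (cl A') = W (cl A) + W (cl B') := by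
      rw [SES_cl hAA', map_add]
    have h2 : (W (cl A)).arg ≤ (W (cl A')).arg := by
      rw [hadd]
      exact le_arg_add hAU hU' le_rfl hcon
    have h3 : (W (cl A')).arg = (W (cl A)).arg := le_antisymm (h1 A' B'' hA'E hA'0) h2
    have h4 : 0 ≤ cr (W (cl E)) (W (cl A')) :=
      (cr_nonneg_iff hEU hA'U).mpr (by rw [h3]; exact hEA)
    have h5 : ‖W (cl A')‖ ≤ ‖W (cl A)‖ := by
      rcases hmax' (cl A') ⟨A', B'', hA'E, hA'0, rfl, h4⟩ with h6 | h6
      · exact absurd h6 (by rw [h3]; exact lt_irrefl _)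
      · exact h6.2
    have h6 : 0 ≤ cr (W (cl A)) (W (cl A')) := (cr_nonneg_iff hAU hA'U).mpr h3.ge
    have h7 : 0 ≤ cr (W (cl A')) (W (cl A)) := (cr_nonneg_iff hA'U hAU).mpr h3.le
    have h8 : cr (W (cl A)) (W (cl B')) = cr (W (cl A)) (W (cl A')) := by
      rw [hadd, cr_add_right, cr_self, zero_add]
    have h9 : cr (W (cl A)) (W (cl B')) = 0 := by
      rw [h8]
      rw [cr_symm] at h7
      linarith
    have h10 : (W (cl B')).arg ≤ (W (cl A)).arg := by
      rw [← cr_nonneg_iff hU' hAU, cr_symm, h9, neg_zero]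
    have h11 := Complex.norm_add_eq (le_antisymm hcon h10)
    rw [← hadd] at h11
    have h12 : 0 < ‖W (cl B')‖ := norm_pos_iff.mpr (UH_ne_zero hU')
    linarith

end MP_14a437_ag
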