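import Pool.Agent.Work.MP_14a437_ag.G.Defs

/-!
# G/Sum  (S) : inequalities summed over HN factors (induction on the HN filtration, `cl_tri`, `cl_zero`)
-/

open CategoryTheory CategoryTheory.Limits CategoryTheory.Pretriangulated

universe v u

namespace MP_14a437_ag

variable {C : Type u} [Category.{v} C] [Preadditive C] [HasZeroObject C] [HasShift C ℤ]
  [∀ n : ℤ, (shiftFunctor C n).Additive] [Pretriangulated C] [IsTriangulated C]

omit [IsTriangulated C] in
theorem PS_norm_le (S : Slicing C) {I : Set ℝ} (u : K0 C →+ ℂ) (m : K0 C →+ ℝ)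
    (h : ∀ φ ∈ I, ∀ X : C, S.P φ X → ‖u (cl X)‖ ≤ m (cl X)) {E : C} (hE : S.PS I E) :
    ‖u (cl E)‖ ≤ m (cl E) := by
  obtain ⟨l, hl, hI⟩ := hE
  induction hl with
  | zero h0 => simp [cl_zero h0]
  | cons f g k hT _ hA _ _ ih =>
    rw [cl_tri f g k hT, map_add, map_add]
    exact (norm_add_le _ _).trans (add_le_add (ih fun φ hφ => hI φ (List.mem_cons_of_mem _ hφ))
      (h _ (hI _ List.mem_cons_self) _ hA))

omit [IsTriangulated C] in
theorem PS_nonneg (S : Slicing C) {I : Set ℝ} (m : K0 C →+ ℝ)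
    (h : ∀ φ ∈ I, ∀ X : C, S.P φ X → 0 ≤ m (cl X)) {E : C} (hE : S.PS I E) : 0 ≤ m (cl E) := by
  obtain ⟨l, hl, hI⟩ := hE
  induction hl with
  | zero h0 => simp [cl_zero h0]
  | cons f g k hT _ hA _ _ ih =>
    rw [cl_tri f g k hT, map_add]
    exact add_nonneg (ih fun φ hφ => hI φ (List.mem_cons_of_mem _ hφ))
      (h _ (hI _ List.mem_cons_self) _ hA)

omit [IsTriangulated C] in
theorem PS_pos (S : Slicing C) {I : Set ℝ} (m : K0 C →+ ℝ)
    (h : ∀ φ ∈ I, ∀ X : C, S.P φ X → ¬ IsZero X → 0 < m (cl X)) {E : C} (hE : S.PS I E)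
    (h0 : ¬ IsZero E) : 0 < m (cl E) := by
  obtain ⟨l, hl, hI⟩ := hE
  cases hl with
  | zero h1 => exact absurd h1 h0
  | cons f g k hT hE' hA hA0 _ =>
    rw [cl_tri f g k hT, map_add]
    refine add_pos_of_nonneg_of_pos (PS_nonneg S (I := I) m ?_
      ⟨_, hE', fun φ hφ => hI φ (List.mem_cons_of_mem _ hφ)⟩) (h _ (hI _ List.mem_cons_self) _ hA hA0)
    intro φ hφ X hX
    by_cases hX0 : IsZero X
    · rw [cl_zero hX0, map_zero]
    · exact (h φ hφ X hX hX0).le

/-- the real functional `x ↦ Im (exp(-π i α) Z x)` -/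
noncomputable def imZ (Z : K0 C →+ ℂ) (α : ℝ) : K0 C →+ ℝ where
  toFun x := (Complex.exp (-(Real.pi * α * Complex.I)) * Z x).im
  map_zero' := by simp
  map_add' x y := by simp only [map_add, mul_add, Complex.add_im]

/-- the real functional `x ↦ Re (exp(-π i α) Z x)` -/
noncomputable def reZ (Z : K0 C →+ ℂ) (α : ℝ) : K0 C →+ ℝ where
  toFun x := (Complex.exp (-(Real.pi * α * Complex.I)) * Z x).re
  map_zero' := by simp
  map_add' x y := by simp only [map_add, mul_add, Complex.add_re]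

omit [IsTriangulated C] in
private theorem sum_val (σ : PreStab C) (α : ℝ) {φ : ℝ} {X : C} (hX : σ.P φ X) :
    Complex.exp (-(Real.pi * α * Complex.I)) * σ.Z (cl X) =
      ((‖σ.Z (cl X)‖ : ℝ) : ℂ) * Complex.exp (((Real.pi * (φ - α) : ℝ) : ℂ) * Complex.I) := by
  by_cases h0 : IsZero X
  · rw [cl_zero h0, map_zero]
    simp
  · obtain ⟨m, hm, h1⟩ := σ.compat φ X hX h0
    have h2 : ‖σ.Z (cl X)‖ = m := by
      rw [h1, norm_mul, Complex.norm_real, Real.norm_of_nonneg hm.le]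
      have h3 : (Real.pi * φ * Complex.I : ℂ) = ((Real.pi * φ : ℝ) : ℂ) * Complex.I := by
        push_cast; ring
      rw [h3, Complex.norm_exp_ofReal_mul_I, mul_one]
    rw [h2, h1]
    rw [mul_left_comm, ← Complex.exp_add]
    congr 2
    push_cast
    ring

omit [IsTriangulated C] in
/-- the values on a semistable object: `Z = ‖Z‖ exp(π i φ)` -/
theorem imZ_of_P (σ : PreStab C) (α : ℝ) {φ : ℝ} {X : C} (hX : σ.P φ X) :
    imZ σ.Z α (cl X) = ‖σ.Z (cl X)‖ * Real.sin (Real.pi * (φ - α)) := by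
  show (Complex.exp (-(Real.pi * α * Complex.I)) * σ.Z (cl X)).im = _
  rw [sum_val σ α hX, Complex.im_ofReal_mul, Complex.exp_ofReal_mul_I_im]

omit [IsTriangulated C] in
theorem reZ_of_P (σ : PreStab C) (α : ℝ) {φ : ℝ} {X : C} (hX : σ.P φ X) :
    reZ σ.Z α (cl X) = ‖σ.Z (cl X)‖ * Real.cos (Real.pi * (φ - α)) := by
  show (Complex.exp (-(Real.pi * α * Complex.I)) * σ.Z (cl X)).re = _
  rw [sum_val σ α hX, Complex.re_ofReal_mul, Complex.exp_ofReal_mul_I_re]

omit [IsTriangulated C] in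
theorem norm_pos_of_P (σ : PreStab C) {φ : ℝ} {X : C} (hX : σ.P φ X) (h0 : ¬ IsZero X) :
    0 < ‖σ.Z (cl X)‖ := by
  obtain ⟨m, hm, h1⟩ := σ.compat φ X hX h0
  rw [h1]
  refine norm_pos_iff.2 (mul_ne_zero ?_ (Complex.exp_ne_zero _))
  exact_mod_cast hm.ne'

end MP_14a437_ag
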