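import Pool.Agent.Work.MP_14a437_ag.G.Quot
import Pool.Agent.Work.MP_14a437_ag.G.Sum

/-!
# G/Near1  (M-L) : two central charges with equal imaginary part on one heart

Let `r = ‖σ.Z X‖`, `u = τ.Z X - σ.Z X`, which is real (`hIm`), `|u| ≤ r sin(π ε)`.
`fac_upper`: `X ∈ σ.P φ'`, `0 < φ' ≤ φ`, `α = φ + ε < 1`:
`Im(exp(-π i α) τ.Z X) = - r sin(π(α-φ')) - u sin(π α) ≤ 0`, since `α - φ' ∈ [ε, α] ⊆ [0,1]` gives
`sin(π(α-φ')) ≥ min (sin π ε) (sin π α) ≥ sin(π ε) sin(π α)` (sine is unimodal on `[0,π]`: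
`Real.sin_le_sin_of_le_of_le_pi_div_two` and `sin(π - x) = sin x`; or concavity).
`fac_lower`: `φ ≤ φ' ≤ 1`, `α = φ - ε > 0`: `Im(exp(-π i α) τ.Z X) = r sin(π(φ'-α)) - u sin(π α) ≥ 0`,
`φ' - α ∈ [ε, 1-α]`.
`near_phase`: `E ∈ σ.P φ` is in the common heart, so has τ-phases in `(0,1]`.  Truncate for τ with
`L = Iic (φ+ε)`: `A → E → B`, `A` has τ-phases in `(φ+ε, 1]`; `A, B` are in the heart.  If `φ + ε ≥ 1`, `A` is
zero.  Otherwise `A` has σ-phases in `(0, φ]` (`sub_phase`), so `imZ τ.Z (φ+ε) (cl A) ≤ 0` (`fac_upper`,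
`PS_nonneg` for the negative), but `> 0` if `A` is nonzero (`PS_pos`, `imZ_of_P`: `ψ - α ∈ (0,1)`); so `A` is
zero, `E ≅ B` has τ-phases `≤ φ+ε`.  Lower bound: truncate with `L = Iio (φ-ε)`: `B` has τ-phases in
`(0, φ-ε)` and σ-phases in `[φ,1]` (`quot_phase`), same contradiction with `fac_lower`; so `E ≅ A`.
-/

open CategoryTheory CategoryTheory.Limits CategoryTheory.Pretriangulated

universe v u

namespace MP_14a437_ag

variable {C : Type u} [Category.{v} C] [Preadditive C] [HasZeroObject C] [HasShift C ℤ]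
  [∀ n : ℤ, (shiftFunctor C n).Additive] [Pretriangulated C] [IsTriangulated C]

private theorem n1_sin {a b c : ℝ} (h0 : 0 ≤ a) (h1 : a ≤ b) (h2 : b ≤ c) (h3 : c ≤ Real.pi) :
    Real.sin a * Real.sin c ≤ Real.sin b := by
  have ha : 0 ≤ Real.sin a := Real.sin_nonneg_of_nonneg_of_le_pi h0 (by linarith)
  have hc : 0 ≤ Real.sin c := Real.sin_nonneg_of_nonneg_of_le_pi (by linarith) h3
  have ha1 := Real.sin_le_one a
  have hc1 := Real.sin_le_one c
  have hp := Real.pi_pos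
  rcases le_total b (Real.pi / 2) with h | h
  · have h4 : Real.sin a ≤ Real.sin b :=
      Real.sin_le_sin_of_le_of_le_pi_div_two (by linarith) h h1
    nlinarith
  · have h4 : Real.sin (Real.pi - c) ≤ Real.sin (Real.pi - b) :=
      Real.sin_le_sin_of_le_of_le_pi_div_two (by linarith) (by linarith) (by linarith)
    rw [Real.sin_pi_sub, Real.sin_pi_sub] at h4
    nlinarith

omit [IsTriangulated C] in
private theorem n1_im (σ τ : PreStab C) (hIm : ∀ x, (τ.Z x).im = (σ.Z x).im) (α : ℝ) {φ' : ℝ}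
    {X : C} (hX : σ.P φ' X) :
    imZ τ.Z α (cl X) = ‖σ.Z (cl X)‖ * Real.sin (Real.pi * (φ' - α)) -
      ((τ.Z (cl X)).re - (σ.Z (cl X)).re) * Real.sin (Real.pi * α) := by
  rw [← imZ_of_P σ α hX]
  have e : τ.Z (cl X) = σ.Z (cl X) + (((τ.Z (cl X)).re - (σ.Z (cl X)).re : ℝ) : ℂ) := by
    apply Complex.ext
    · rw [Complex.add_re, Complex.ofReal_re]
      ring
    · rw [Complex.add_im, Complex.ofReal_im, hIm, add_zero]
  have hE : (Complex.exp (-(Real.pi * α * Complex.I))).im = -Real.sin (Real.pi * α) := by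
    have e2 : (-(Real.pi * α * Complex.I) : ℂ) = ((-(Real.pi * α) : ℝ) : ℂ) * Complex.I := by
      push_cast
      ring
    rw [e2, Complex.exp_ofReal_mul_I_im, Real.sin_neg]
  have h1 : imZ τ.Z α (cl X) = (Complex.exp (-(Real.pi * α * Complex.I)) * τ.Z (cl X)).im := rfl
  have h2 : imZ σ.Z α (cl X) = (Complex.exp (-(Real.pi * α * Complex.I)) * σ.Z (cl X)).im := rfl
  rw [h1, h2]
  conv_lhs => rw [e]
  rw [mul_add, Complex.add_im, Complex.im_mul_ofReal, hE]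
  ring

omit [IsTriangulated C] in
private theorem n1_abs (σ τ : PreStab C) {ε : ℝ} {X : C}
    (hle : ‖τ.Z (cl X) - σ.Z (cl X)‖ ≤ Real.sin (Real.pi * ε) * ‖σ.Z (cl X)‖) :
    |(τ.Z (cl X)).re - (σ.Z (cl X)).re| ≤ Real.sin (Real.pi * ε) * ‖σ.Z (cl X)‖ := by
  rw [← Complex.sub_re]
  exact (Complex.abs_re_le_norm _).trans hle

omit [IsTriangulated C] in
private theorem n1_empty (S : Slicing C) {I : Set ℝ} (hI : ∀ x, x ∉ I) {E : C} (hE : S.PS I E) :
    IsZero E := by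
  obtain ⟨l, hl, hlI⟩ := hE
  have h0 : l = [] := List.eq_nil_iff_forall_not_mem.2 fun x hx => hI x (hlI x hx)
  subst h0
  exact isZero_of_hn_nil hl

omit [IsTriangulated C] in
theorem fac_upper (σ τ : PreStab C) (hIm : ∀ x, (τ.Z x).im = (σ.Z x).im) {ε φ φ' : ℝ}
    (hε0 : 0 ≤ ε) {X : C} (hX : σ.P φ' X) (h0 : 0 < φ') (h1 : φ' ≤ φ) (h2 : φ + ε < 1)
    (hle : ‖τ.Z (cl X) - σ.Z (cl X)‖ ≤ Real.sin (Real.pi * ε) * ‖σ.Z (cl X)‖) :
    imZ τ.Z (φ + ε) (cl X) ≤ 0 := by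
  have hp := Real.pi_pos
  have h3 := n1_im σ τ hIm (φ + ε) hX
  have h4 := n1_abs σ τ hle
  have h5 := abs_le.1 h4
  have hr := norm_nonneg (σ.Z (cl X))
  have e : Real.pi * (φ' - (φ + ε)) = -(Real.pi * (φ + ε - φ')) := by ring
  rw [e, Real.sin_neg] at h3
  have h6 : Real.sin (Real.pi * ε) * Real.sin (Real.pi * (φ + ε)) ≤
      Real.sin (Real.pi * (φ + ε - φ')) := by
    refine n1_sin (mul_nonneg hp.le hε0) ?_ ?_ ?_
    · exact mul_le_mul_of_nonneg_left (by linarith) hp.le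
    · exact mul_le_mul_of_nonneg_left (by linarith) hp.le
    · nlinarith
  have h7 : 0 ≤ Real.sin (Real.pi * (φ + ε)) :=
    Real.sin_nonneg_of_nonneg_of_le_pi (mul_nonneg hp.le (by linarith)) (by nlinarith)
  rw [h3]
  have h8 := mul_le_mul_of_nonneg_right h5.1 h7
  have h9 := mul_le_mul_of_nonneg_left h6 hr
  nlinarith

omit [IsTriangulated C] in
theorem fac_lower (σ τ : PreStab C) (hIm : ∀ x, (τ.Z x).im = (σ.Z x).im) {ε φ φ' : ℝ}
    (hε0 : 0 ≤ ε) {X : C} (hX : σ.P φ' X) (h0 : φ ≤ φ') (h1 : φ' ≤ 1) (h2 : 0 < φ - ε)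
    (hle : ‖τ.Z (cl X) - σ.Z (cl X)‖ ≤ Real.sin (Real.pi * ε) * ‖σ.Z (cl X)‖) :
    0 ≤ imZ τ.Z (φ - ε) (cl X) := by
  have hp := Real.pi_pos
  have h3 := n1_im σ τ hIm (φ - ε) hX
  have h4 := n1_abs σ τ hle
  have h5 := abs_le.1 h4
  have hr := norm_nonneg (σ.Z (cl X))
  have h6 : Real.sin (Real.pi * ε) * Real.sin (Real.pi - Real.pi * (φ - ε)) ≤
      Real.sin (Real.pi * (φ' - (φ - ε))) := by
    refine n1_sin (mul_nonneg hp.le hε0) ?_ ?_ ?_
    · exact mul_le_mul_of_nonneg_left (by linarith) hp.le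
    · nlinarith
    · nlinarith
  rw [Real.sin_pi_sub] at h6
  have h7 : 0 ≤ Real.sin (Real.pi * (φ - ε)) :=
    Real.sin_nonneg_of_nonneg_of_le_pi (mul_nonneg hp.le h2.le) (by nlinarith)
  rw [h3]
  have h8 := mul_le_mul_of_nonneg_right h5.2 h7
  have h9 := mul_le_mul_of_nonneg_left h6 hr
  nlinarith

theorem near_phase (σ τ : PreStab C) (hH : ∀ E : C, σ.heart 0 E ↔ τ.heart 0 E)
    (hIm : ∀ x, (τ.Z x).im = (σ.Z x).im) {ε : ℝ} (hε0 : 0 ≤ ε)
    (hle : ∀ (φ : ℝ) (E : C), σ.P φ E →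
      ‖τ.Z (cl E) - σ.Z (cl E)‖ ≤ Real.sin (Real.pi * ε) * ‖σ.Z (cl E)‖)
    {φ : ℝ} (h0 : 0 < φ) (h1 : φ ≤ 1) {E : C} (hE : σ.P φ E) :
    τ.PS (Set.Icc (φ - ε) (φ + ε)) E := by
  have hp := Real.pi_pos
  have hS : σ.PS {φ} E := (PS_singleton σ.toSlicing φ E).2 hE
  have hσE : σ.heart 0 E := PS_mono σ.toSlicing (by
    intro x hx
    rw [Set.mem_singleton_iff] at hx
    subst hx
    exact ⟨h0, by linarith⟩) hS
  have hτE : τ.PS (Set.Ioc 0 (0 + 1)) E := (hH E).1 hσE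
  -- the upper bound
  have hup : τ.PS (Set.Ioc 0 (0 + 1) ∩ Set.Iic (φ + ε)) E := by
    obtain ⟨A, B, f, g, h, hT, hA, hB⟩ := PS_trunc τ.toSlicing (isLowerSet_Iic (φ + ε)) hτE
    have hA0 : IsZero A := by
      rcases le_or_gt 1 (φ + ε) with h2 | h2
      · refine n1_empty τ.toSlicing ?_ hA
        rintro x ⟨hx, hx'⟩
        apply hx'
        have := hx.2
        show x ≤ φ + ε
        linarith
      · by_contra hne
        have hAσ : σ.heart 0 A := (hH A).2 (PS_mono τ.toSlicing (fun x hx => hx.1) hA)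
        have hBσ : σ.heart 0 B := (hH B).2 (PS_mono τ.toSlicing (fun x hx => hx.1) hB)
        have h3 : σ.PS (Set.Ioc 0 φ) A := sub_phase σ.toSlicing 0 φ
          ⟨hAσ, hσE, hBσ, f, g, h, hT⟩ (PS_mono σ.toSlicing (by
            intro x hx
            rw [Set.mem_singleton_iff] at hx
            subst hx
            exact ⟨h0, le_refl _⟩) hS)
        have h4 : 0 ≤ (-imZ τ.Z (φ + ε)) (cl A) := PS_nonneg σ.toSlicing (-imZ τ.Z (φ + ε)) (by
          intro x hx X hX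
          rw [AddMonoidHom.neg_apply, neg_nonneg]
          exact fac_upper σ τ hIm hε0 hX hx.1 hx.2 h2 (hle x X hX)) h3
        have h5 : 0 < imZ τ.Z (φ + ε) (cl A) := PS_pos τ.toSlicing (imZ τ.Z (φ + ε)) (by
          rintro x ⟨hx, hx'⟩ X hX hX0
          have hx1 : φ + ε < x := not_le.1 hx'
          have hx2 := hx.2
          rw [imZ_of_P τ (φ + ε) hX]
          refine mul_pos (norm_pos_of_P τ hX hX0) (Real.sin_pos_of_pos_of_lt_pi ?_ ?_)
          · exact mul_pos hp (by linarith)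
          · have h6 : x - (φ + ε) < 1 := by linarith
            have h7 := mul_lt_mul_of_pos_left h6 hp
            linarith) hA hne
        rw [AddMonoidHom.neg_apply] at h4
        linarith
    have hg : IsIso g := (Triangle.isZero₁_iff_isIso₂ _ hT).1 hA0
    exact PS_iso τ.toSlicing (asIso g).symm hB
  -- the lower bound
  obtain ⟨A, B, f, g, h, hT, hA, hB⟩ := PS_trunc τ.toSlicing (isLowerSet_Iio (φ - ε)) hup
  have hB0 : IsZero B := by
    rcases le_or_gt (φ - ε) 0 with h2 | h2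
    · refine n1_empty τ.toSlicing ?_ hB
      rintro x ⟨hx, hx'⟩
      have h3 : x < φ - ε := hx'
      have := hx.1.1
      linarith
    · by_contra hne
      have hAσ : σ.heart 0 A := (hH A).2 (PS_mono τ.toSlicing (fun x hx => hx.1.1) hA)
      have hBσ : σ.heart 0 B := (hH B).2 (PS_mono τ.toSlicing (fun x hx => hx.1.1) hB)
      have h3 : σ.PS (Set.Icc φ (0 + 1)) B := quot_phase σ.toSlicing 0 φ
        ⟨hAσ, hσE, hBσ, f, g, h, hT⟩ (PS_mono σ.toSlicing (by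
          intro x hx
          rw [Set.mem_singleton_iff] at hx
          subst hx
          exact ⟨le_refl _, by linarith⟩) hS)
      have h4 : 0 ≤ imZ τ.Z (φ - ε) (cl B) := PS_nonneg σ.toSlicing (imZ τ.Z (φ - ε)) (by
        intro x hx X hX
        have hx2 := hx.2
        exact fac_lower σ τ hIm hε0 hX hx.1 (by linarith) h2 (hle x X hX)) h3
      have h5 : 0 < (-imZ τ.Z (φ - ε)) (cl B) := PS_pos τ.toSlicing (-imZ τ.Z (φ - ε)) (by
        rintro x ⟨hx, hx'⟩ X hX hX0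
        have hx1 : x < φ - ε := hx'
        have hx2 := hx.1.1
        rw [AddMonoidHom.neg_apply, imZ_of_P τ (φ - ε) hX]
        have e : Real.pi * (x - (φ - ε)) = -(Real.pi * (φ - ε - x)) := by ring
        rw [e, Real.sin_neg, mul_neg, neg_neg]
        refine mul_pos (norm_pos_of_P τ hX hX0) (Real.sin_pos_of_pos_of_lt_pi ?_ ?_)
        · exact mul_pos hp (by linarith)
        · have h6 : φ - ε - x < 1 := by linarith
          have h7 := mul_lt_mul_of_pos_left h6 hp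
          linarith) hB hne
      rw [AddMonoidHom.neg_apply] at h5
      linarith
  have hf : IsIso f := (Triangle.isZero₃_iff_isIso₁ _ hT).1 hB0
  refine PS_mono τ.toSlicing ?_ (PS_iso τ.toSlicing (asIso f) hA)
  rintro x ⟨hx, hx'⟩
  exact ⟨not_lt.1 hx', hx.2⟩

end MP_14a437_ag
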