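import Pool.Agent.Work.MP_14a437_ag.G.Uniq
import Pool.Agent.Work.MP_14a437_ag.G.Near1

/-!
# G/Near2  (M) : the generalized distance from the semistable objects

`near_of_P`: let `a, b` be head and last of the `S`-list `l`, `c, d` those of the `T`-list `m`.
By induction on the HN filtration and `PS_ext`, `E ∈ T.PS (Icc (a-ε) (b+ε))` (all members of `l` are in
`[a,b]`, `hn_sorted`), so `c ≥ a-ε`, `d ≤ b+ε` (`hn_mem_of_PS`).  If `c > a+ε`: `last_factor` for `l` gives a
nonzero `E ⟶ A`, `A ∈ S.P a ⊆ T.PS (Icc (a-ε) (a+ε))`, but `E ∈ T.PS (Ici c)`, contradiction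
(`PS_hom_zero`).  If `d < b-ε`: `first_factor`, dual.
`Near.P_subset`: `[φ]` is an HN list of `E` (nonzero) for `S`; a `T`-list `m` has head and last within `ε` of
`φ`, and all members in between (`hn_sorted`); see `near_re` in T/Sign for the same argument.
`Near.trans`: take a `T`-list of `E` (nonempty, as `E` is nonzero).
`near_of_heart`: `near_phase` for `φ ∈ (0,1]`; for general `φ` shift by `-n`, `n = ⌈φ⌉ - 1`
(`P_shiftn`, `PS_shiftn`, `(E⟦-n⟧)⟦n⟧ ≅ E`), then `near_of_P`.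
-/

open CategoryTheory CategoryTheory.Limits CategoryTheory.Pretriangulated

universe v u

namespace MP_14a437_ag

variable {C : Type u} [Category.{v} C] [Preadditive C] [HasZeroObject C] [HasShift C ℤ]
  [∀ n : ℤ, (shiftFunctor C n).Additive] [Pretriangulated C] [IsTriangulated C]

private theorem sorted_bounds {m : List ℝ} (hs : m.Pairwise (· < ·)) (hm0 : m ≠ []) :
    ∀ φ ∈ m, m.head hm0 ≤ φ ∧ φ ≤ m.getLast hm0 := by
  intro φ hφ
  constructor
  · cases m with
    | nil => exact absurd rfl hm0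
    | cons x l =>
      rw [List.head_cons]
      rcases List.mem_cons.1 hφ with rfl | h
      · exact le_rfl
      · exact ((List.pairwise_cons.1 hs).1 φ h).le
  · have hd := List.dropLast_append_getLast hm0
    rw [← hd] at hφ hs
    rcases List.mem_append.1 hφ with h | h
    · exact ((List.pairwise_append.1 hs).2.2 φ h _ (by simp)).le
    · simp only [List.mem_singleton] at h
      exact h.le

private theorem ps_of_hn (S T : Slicing C) {ε α β : ℝ}
    (h : ∀ (φ : ℝ) (E : C), S.P φ E → T.PS (Set.Icc (φ - ε) (φ + ε)) E) {E : C} {l : List ℝ}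
    (hE : HN S.P E l) (hl : ∀ φ ∈ l, α ≤ φ - ε ∧ φ + ε ≤ β) : T.PS (Set.Icc α β) E := by
  induction hE with
  | zero h0 => exact PS_zero T _ h0
  | @cons E' E A l φ f g w hT hE' hA hA0 hl' ih =>
    have h1 := ih fun ψ hψ => hl ψ (List.mem_cons_of_mem _ hψ)
    have h2 := hl φ List.mem_cons_self
    have h3 : T.PS (Set.Icc α β) A := PS_mono T (Set.Icc_subset_Icc h2.1 h2.2) (h φ A hA)
    exact PS_ext T Set.ordConnected_Icc f g w hT h1 h3

theorem near_of_P (S T : Slicing C) {ε : ℝ} (hε0 : 0 ≤ ε)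
    (h : ∀ (φ : ℝ) (E : C), S.P φ E → T.PS (Set.Icc (φ - ε) (φ + ε)) E) : Near S T ε := by
  have _ := hε0
  intro E l m hl hm hE hE'
  have bl := sorted_bounds (hn_sorted hE) hl
  have bm := sorted_bounds (hn_sorted hE') hm
  have h1 : T.PS (Set.Icc (l.head hl - ε) (l.getLast hl + ε)) E := by
    refine ps_of_hn S T h hE fun φ hφ => ?_
    have := bl φ hφ
    constructor <;> linarith [this.1, this.2]
  have h2 := hn_mem_of_PS T Set.ordConnected_Icc hE' h1
  have h3 := (h2 _ (List.head_mem hm)).1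
  have h4 := (h2 _ (List.getLast_mem hm)).2
  have h5 : m.head hm ≤ l.head hl + ε := by
    by_contra hc
    push Not at hc
    obtain ⟨A, g, hA, hg⟩ := last_factor S hl hE
    apply hg
    have hEc : T.PS (Set.Ici (m.head hm)) E := ⟨m, hE', fun φ hφ => (bm φ hφ).1⟩
    refine PS_hom_zero T ?_ hEc (h _ A hA) g
    intro φ hφ ψ hψ
    have e1 : m.head hm ≤ φ := hφ
    have e2 := hψ.2
    linarith
  have h6 : l.getLast hl - ε ≤ m.getLast hm := by
    by_contra hc
    push Not at hc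
    obtain ⟨A, f, hA, hf⟩ := first_factor S hl hE
    apply hf
    have hEc : T.PS (Set.Iic (m.getLast hm)) E := ⟨m, hE', fun φ hφ => (bm φ hφ).2⟩
    refine PS_hom_zero T ?_ (h _ A hA) hEc f
    intro φ hφ ψ hψ
    have e1 : ψ ≤ m.getLast hm := hψ
    have e2 := hφ.1
    linarith
  constructor
  · rw [abs_le]
    constructor <;> linarith
  · rw [abs_le]
    constructor <;> linarith

omit [IsTriangulated C] in
theorem Near.P_subset {S T : Slicing C} {ε : ℝ} (hn : Near S T ε) {φ : ℝ} {E : C}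
    (hE : S.P φ E) : T.PS (Set.Icc (φ - ε) (φ + ε)) E := by
  by_cases h0 : IsZero E
  · exact PS_zero T _ h0
  obtain ⟨m, hm⟩ := T.exists_hn E
  have hm0 : m ≠ [] := by
    rintro rfl
    exact h0 (isZero_of_hn_nil hm)
  obtain ⟨h1, h2⟩ := hn E [φ] m (by simp) hm0 (hn_single S hE h0) hm
  simp only [List.head_cons, List.getLast_singleton] at h1 h2
  rw [abs_le] at h1 h2
  refine ⟨m, hm, fun ψ hψ => ?_⟩
  have h3 := sorted_bounds (hn_sorted hm) hm0 ψ hψ
  constructor <;> linarith [h1.1, h1.2, h2.1, h2.2, h3.1, h3.2]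

omit [IsTriangulated C] in
theorem Near.symm {S T : Slicing C} {ε : ℝ} (hn : Near S T ε) : Near T S ε := by
  intro E l m hl hm h1 h2
  obtain ⟨h3, h4⟩ := hn E m l hm hl h2 h1
  exact ⟨by rw [abs_sub_comm]; exact h3, by rw [abs_sub_comm]; exact h4⟩

omit [IsTriangulated C] in
theorem Near.trans {S T U : Slicing C} {ε δ : ℝ} (h1 : Near S T ε) (h2 : Near T U δ) :
    Near S U (ε + δ) := by
  intro E l m hl hm hE hE'
  obtain ⟨t, ht⟩ := T.exists_hn E
  have ht0 : t ≠ [] := by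
    rintro rfl
    exact hl (hn_nil_of_isZero S hE (isZero_of_hn_nil ht))
  obtain ⟨a1, a2⟩ := h1 E l t hl ht0 hE ht
  obtain ⟨b1, b2⟩ := h2 E t m ht0 hm ht hE'
  exact ⟨(abs_sub_le _ _ _).trans (add_le_add a1 b1), (abs_sub_le _ _ _).trans (add_le_add a2 b2)⟩

theorem near_of_heart (σ τ : PreStab C) (hH : ∀ E : C, σ.heart 0 E ↔ τ.heart 0 E)
    (hIm : ∀ x, (τ.Z x).im = (σ.Z x).im) {ε : ℝ} (hε0 : 0 ≤ ε)
    (hle : ∀ (φ : ℝ) (E : C), σ.P φ E →
      ‖τ.Z (cl E) - σ.Z (cl E)‖ ≤ Real.sin (Real.pi * ε) * ‖σ.Z (cl E)‖) :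
    Near σ.toSlicing τ.toSlicing ε := by
  refine near_of_P σ.toSlicing τ.toSlicing hε0 fun φ E hE => ?_
  obtain ⟨n, hn⟩ : ∃ n : ℤ, n = ⌈φ⌉ - 1 := ⟨_, rfl⟩
  have h0 : 0 < φ + ((-n : ℤ) : ℝ) := by
    have h := Int.ceil_lt_add_one φ
    rw [hn]
    push_cast
    linarith
  have h1 : φ + ((-n : ℤ) : ℝ) ≤ 1 := by
    have h := Int.le_ceil φ
    rw [hn]
    push_cast
    linarith
  have hE' : σ.P (φ + ((-n : ℤ) : ℝ)) (E⟦(-n : ℤ)⟧) := (P_shiftn σ.toSlicing φ E (-n)).2 hE
  have h2 := near_phase σ τ hH hIm hε0 hle h0 h1 hE'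
  have h3 : τ.PS (Set.Icc (φ - ε) (φ + ε)) ((E⟦(-n : ℤ)⟧)⟦n⟧) := by
    refine PS_shiftn τ.toSlicing n ?_ h2
    intro ψ hψ
    have e1 := hψ.1
    have e2 := hψ.2
    push_cast at e1 e2
    constructor <;> linarith
  exact PS_iso τ.toSlicing (shiftNegShift E n) h3

end MP_14a437_ag
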