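import Pool.Agent.Work.MP_14a437_ag.G.HNH

/-!
# G/QAll  (M) : HN filtrations of all objects

`hn_all` : induction on `n : ℕ`, `E ∈ S.PS (Ioc a (a + n))` with `a` an integer.  `n = 0`: `Ioc` is empty,
so `E` is zero.  `n + 1`: truncate with `L = Iic (a + n)` (`PS_trunc`): `A → E → B` with `A` in
`PS (Ioc (a+n) (a+n+1))` and `B ∈ PS (Ioc a (a+n))`.  `A⟦-(a+n)⟧` is in the heart `S.heart 0` (`PS_shiftn`), so
by `hn_heart` it has an HN filtration with phases in `(0,1]`; shift back by `a + n` (`hn_shift_gen`,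
`QP_shiftn`, `hn_iso` with `(A⟦-m⟧)⟦m⟧ ≅ A`): phases in `(a+n, a+n+1]`.  `B` by induction; `hn_append`.
`exists_hn_QP`: every `E` has `S`-phases in some `Ioc a (a+n)` (finite list).
-/

open CategoryTheory CategoryTheory.Limits CategoryTheory.Pretriangulated

universe v u

namespace MP_14a437_ag

variable {C : Type u} [Category.{v} C] [Preadditive C] [HasZeroObject C] [HasShift C ℤ]
  [∀ n : ℤ, (shiftFunctor C n).Additive] [Pretriangulated C] [IsTriangulated C]

theorem hn_all (S : Slicing C) {W : K0 C →+ ℂ} (hW : IsStabFun (S.heart 0) W) (a : ℤ) (n : ℕ)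
    (E : C) (hE : S.PS (Set.Ioc (a : ℝ) (a + n)) E) :
    ∃ l : List ℝ, HN (QP (S.heart 0) W) E l ∧ ∀ ψ ∈ l, (a : ℝ) < ψ ∧ ψ ≤ a + n := by
  have hH := heart_isAdm S 0
  induction n generalizing E with
  | zero =>
    obtain ⟨l, hl, hlI⟩ := hE
    cases l with
    | nil => exact ⟨[], HN.zero (isZero_of_hn_nil hl), by simp⟩
    | cons φ l =>
      exfalso
      have h1 := hlI φ List.mem_cons_self
      rw [Set.mem_Ioc] at h1
      push_cast at h1
      linarith [h1.1, h1.2]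
  | succ n ih =>
    obtain ⟨A, B, f, g, h, hT, hA, hB⟩ := PS_trunc S (L := Set.Iic ((a : ℝ) + n))
      (isLowerSet_Iic _) hE
    have hA1 : (S.heart 0) (A⟦(-(a + n) : ℤ)⟧) := by
      refine PS_shiftn S _ (fun φ hφ => ?_) hA
      obtain ⟨h1, h2⟩ := hφ
      rw [Set.mem_Ioc] at h1
      rw [Set.mem_Iic, not_le] at h2
      rw [Set.mem_Ioc]
      have h3 := h1.2
      push_cast at h3 ⊢
      constructor <;> linarith
    obtain ⟨l₁, hl₁, hp₁⟩ := hn_heart hH hW _ hA1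
    have hl₁' := hn_iso (hn_shift_gen (P := QP (S.heart 0) W) (a + n)
      (fun φ X h => (QP_shiftn hH φ X (a + n)).2 h) hl₁)
      ((shiftFunctorCompIsoId C (-(a + n) : ℤ) (a + n) (by omega)).app A)
    have hB1 : S.PS (Set.Ioc (a : ℝ) (a + n)) B := by
      refine PS_mono S ?_ hB
      rintro φ ⟨h1, h2⟩
      exact ⟨h1.1, h2⟩
    obtain ⟨l₂, hl₂, hp₂⟩ := ih B hB1
    refine ⟨l₂ ++ l₁.map (fun φ => φ + ((a + n : ℤ) : ℝ)), hn_append f g h hT hl₁' hl₂ ?_, ?_⟩
    · intro φ hφ ψ hψ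
      obtain ⟨χ, hχ, rfl⟩ := List.mem_map.1 hψ
      have h1 := (hp₁ χ hχ).1
      have h2 := (hp₂ φ hφ).2
      push_cast
      linarith
    · intro ψ hψ
      rcases List.mem_append.1 hψ with h1 | h1
      · have h2 := hp₂ ψ h1
        push_cast
        exact ⟨h2.1, by linarith [h2.2]⟩
      · obtain ⟨χ, hχ, rfl⟩ := List.mem_map.1 h1
        have h2 := (hp₁ χ hχ).1
        have h3 := (hp₁ χ hχ).2.1
        have h4 : (0 : ℝ) ≤ n := Nat.cast_nonneg n
        push_cast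
        constructor <;> linarith

private theorem qall_bound (l : List ℝ) : ∃ N : ℕ, ∀ φ ∈ l, |φ| < N := by
  induction l with
  | nil => exact ⟨0, by simp⟩
  | cons φ l ih =>
    obtain ⟨N, hN⟩ := ih
    obtain ⟨M, hM⟩ := exists_nat_gt |φ|
    refine ⟨max N M, fun ψ hψ => ?_⟩
    push_cast
    rcases List.mem_cons.1 hψ with rfl | h1
    · exact lt_of_lt_of_le hM (le_max_right _ _)
    · exact lt_of_lt_of_le (hN ψ h1) (le_max_left _ _)

theorem exists_hn_QP (S : Slicing C) {W : K0 C →+ ℂ} (hW : IsStabFun (S.heart 0) W) (E : C) :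
    ∃ l : List ℝ, HN (QP (S.heart 0) W) E l := by
  obtain ⟨l, hl⟩ := S.exists_hn E
  obtain ⟨N, hN⟩ := qall_bound l
  obtain ⟨m, hm, -⟩ := hn_all S hW (-(N : ℤ)) (2 * N) E ⟨l, hl, fun φ hφ => by
    have h1 := abs_lt.1 (hN φ hφ)
    rw [Set.mem_Ioc]
    push_cast
    constructor <;> linarith [h1.1, h1.2]⟩
  exact ⟨m, hm⟩

end MP_14a437_ag
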