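import Pool.Agent.Work.MP_14a437_ag.G.Hom0
import Pool.Agent.Work.MP_14a437_ag.G.Max
import Pool.Agent.Work.MP_14a437_ag.G.QPb

/-!
# G/QBi  (M) : semistable objects of one phase are closed under extensions and biproducts

`Wss_ext`: if `X` or `Y` is zero then `E` is isomorphic to the other (`Wss_iso`).  Otherwise
`arg W(E) = t` (`arg_add_le`, `le_arg_add`).  `A → E → B` from `exists_max`; `arg W(A) ≥ arg W(E) = t`
(`SES_self`).  If `arg W(A) > t` then `Hom(A,X) = Hom(A,Y) = 0` (`Wss_hom_zero`), so `A ⟶ E` is zero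
(`Triangle.coyoneda_exact₂`), so `A` is zero (`SES_zero_map`), contradiction.  So `arg W(A) = t` and all
subobjects `A'` have `arg W(A') ≤ t = arg W(E)`, i.e. `cr (W E) (W A') ≤ 0` (`cr_pos_iff`).
`QP_biprod`: `(X ⊞ Y)⟦-n⟧ ≅ X⟦-n⟧ ⊞ Y⟦-n⟧` (`Functor.mapBiprod`),
`binaryBiproductTriangle_distinguished`, `Wss_ext`.
-/

open CategoryTheory CategoryTheory.Limits CategoryTheory.Pretriangulated

universe v u

namespace MP_14a437_ag

variable {C : Type u} [Category.{v} C] [Preadditive C] [HasZeroObject C] [HasShift C ℤ]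
  [∀ n : ℤ, (shiftFunctor C n).Additive] [Pretriangulated C] [IsTriangulated C]

theorem Wss_ext {H : ObjectProperty C} (hH : IsAdm H) {W : K0 C →+ ℂ} (hW : IsStabFun H W)
    {X E Y : C} (h : SES H X E Y) (hX : Wss H W X) (hY : Wss H W Y) {t : ℝ}
    (hXt : ¬ IsZero X → (W (cl X)).arg = t) (hYt : ¬ IsZero Y → (W (cl Y)).arg = t) :
    Wss H W E ∧ (¬ IsZero E → (W (cl E)).arg = t) := by
  obtain ⟨hX', hE, hY', f, g, δ, hT⟩ := id h
  by_cases hX0 : IsZero X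
  · have hi : IsIso g := (Triangle.isZero₁_iff_isIso₂ _ hT).1 hX0
    have e : Y ≅ E := (@asIso _ _ _ _ g hi).symm
    refine ⟨Wss_iso hH e hY, fun hE0 => ?_⟩
    rw [← cl_iso e]
    exact hYt fun hz => hE0 (hz.of_iso e.symm)
  by_cases hY0 : IsZero Y
  · have hi : IsIso f := (Triangle.isZero₃_iff_isIso₁ _ hT).1 hY0
    have e : X ≅ E := @asIso _ _ _ _ f hi
    refine ⟨Wss_iso hH e hX, fun hE0 => ?_⟩
    rw [← cl_iso e]
    exact hXt fun hz => hE0 (hz.of_iso e.symm)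
  have hE0 : ¬ IsZero E := fun hz => hX0 (SES_isZero hH h hz).1
  have hWX := hW.pos X hX.1 hX0
  have hWY := hW.pos Y hY.1 hY0
  have hWE := hW.pos E hE hE0
  have e1 : W (cl E) = W (cl X) + W (cl Y) := by rw [SES_cl h, map_add]
  have e2 := hXt hX0
  have e3 := hYt hY0
  have e4 : (W (cl E)).arg = t := by
    rw [e1]
    exact le_antisymm (arg_add_le hWX hWY e2.le e3.le) (le_arg_add hWX hWY e2.ge e3.ge)
  refine ⟨⟨hE, ?_⟩, fun _ => e4⟩
  obtain ⟨A, B, hAEB, hA0, hAss, hmax, -⟩ := exists_max hH hW hE hE0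
  have hWA := hW.pos A hAEB.1 hA0
  have h5 : (W (cl A)).arg ≤ t := by
    by_contra hcon
    push Not at hcon
    obtain ⟨hA', -, hB', a, b, c, hT2⟩ := id hAEB
    have h6 : a ≫ g = 0 := Wss_hom_zero hH hW hAss hY (by rw [e3]; exact hcon) _
    obtain ⟨k, hk⟩ := Triangle.coyoneda_exact₂ _ hT a h6
    have h7 : k = 0 := Wss_hom_zero hH hW hAss hX (by rw [e2]; exact hcon) k
    have h8 : a = 0 := by
      rw [hk, h7]
      exact zero_comp
    exact hA0 (SES_zero_map hH hA' hB' a b c hT2 h8)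
  intro A' B' hs
  by_cases hA'0 : IsZero A'
  · rw [cl_zero hA'0, map_zero, cr_eq]
    simp
  · have hWA' := hW.pos A' hs.1 hA'0
    by_contra hcon
    rw [not_le, cr_pos_iff hWE hWA', e4] at hcon
    have h9 := hmax A' B' hs hA'0
    linarith

theorem QP_biprod {H : ObjectProperty C} (hH : IsAdm H) {W : K0 C →+ ℂ} (hW : IsStabFun H W)
    {φ : ℝ} {X Y : C} (hX : QP H W φ X) (hY : QP H W φ Y) : QP H W φ (X ⊞ Y) := by
  obtain ⟨h1, h2⟩ := hX
  obtain ⟨h3, h4⟩ := hY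
  generalize hn : (-(⌈φ⌉ - 1) : ℤ) = n at h1 h2 h3 h4
  haveI := preservesBinaryBiproducts_of_preservesBiproducts (shiftFunctor C n)
  have e : X⟦n⟧ ⊞ Y⟦n⟧ ≅ (X ⊞ Y)⟦n⟧ := ((shiftFunctor C n).mapBiprod X Y).symm
  have hd := binaryBiproductTriangle_distinguished (X⟦n⟧) (Y⟦n⟧)
  have hHb : H (X⟦n⟧ ⊞ Y⟦n⟧) := hH.ext _ _ _ hd h1.1 h3.1
  have hs : SES H (X⟦n⟧) (X⟦n⟧ ⊞ Y⟦n⟧) (Y⟦n⟧) := ⟨h1.1, hHb, h3.1, _, _, _, hd⟩
  have hz : ∀ Z : C, IsZero Z → IsZero (Z⟦n⟧) := fun Z h => (shiftFunctor C n).map_isZero h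
  have h5 := Wss_ext hH hW hs h1 h3 (t := Real.pi * (φ - (⌈φ⌉ - 1)))
    (fun h => h2 fun h' => h (hz _ h')) (fun h => h4 fun h' => h (hz _ h'))
  unfold QP
  rw [hn]
  refine ⟨Wss_iso hH e h5.1, fun h => ?_⟩
  rw [← cl_iso e]
  refine h5.2 fun h' => h ?_
  have h6 : IsZero ((X ⊞ Y)⟦n⟧) := h'.of_iso e.symm
  rw [IsZero.iff_id_eq_zero] at h6 ⊢
  apply (shiftFunctor C n).map_injective
  rw [CategoryTheory.Functor.map_id, Functor.map_zero]
  exact h6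

end MP_14a437_ag
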