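import Pool.Agent.Work.MP_14a437_ag.G.Hom0
import Pool.Agent.Work.MP_14a437_ag.G.QPb

/-!
# G/QHom  (M) : the Hom axiom of a slicing for `QP`

Let `n = ⌈φ⌉ - 1`, `m = ⌈ψ⌉ - 1`, `m ≤ n`, `X' = X⟦-n⟧`, `Y' = Y⟦-m⟧` in `H`.  Shift `f` by `-n`:
`X' ⟶ Y⟦-n⟧ ≅ Y'⟦m-n⟧`.  If `m < n` this is zero by `hH.hom_neg`.  If `m = n` it is a morphism `X' ⟶ Y'` with
`arg W(Y') = π(ψ-n) < π(φ-n) = arg W(X')` (nonzero objects), zero by `Wss_hom_zero`.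
-/

open CategoryTheory CategoryTheory.Limits CategoryTheory.Pretriangulated

universe v u

namespace MP_14a437_ag

variable {C : Type u} [Category.{v} C] [Preadditive C] [HasZeroObject C] [HasShift C ℤ]
  [∀ n : ℤ, (shiftFunctor C n).Additive] [Pretriangulated C] [IsTriangulated C]

theorem QP_hom {H : ObjectProperty C} (hH : IsAdm H) {W : K0 C →+ ℂ} (hW : IsStabFun H W)
    {φ ψ : ℝ} {X Y : C} (h : ψ < φ) (hX : QP H W φ X) (hY : QP H W ψ Y) (f : X ⟶ Y) : f = 0 := by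
  by_cases hX0 : IsZero X
  · exact hX0.eq_of_src _ _
  by_cases hY0 : IsZero Y
  · exact hY0.eq_of_tgt _ _
  unfold QP at hX hY
  obtain ⟨hX1, hX2⟩ := hX
  obtain ⟨hY1, hY2⟩ := hY
  have hX2 := hX2 hX0
  have hY2 := hY2 hY0
  have hle : ⌈ψ⌉ ≤ ⌈φ⌉ := Int.ceil_mono h.le
  apply (shiftFunctor C (-(⌈φ⌉ - 1) : ℤ)).map_injective
  rw [Functor.map_zero]
  rcases hle.lt_or_eq with hlt | heq
  · have e := (shiftFunctorAdd' C (-(⌈ψ⌉ - 1) : ℤ) (⌈ψ⌉ - ⌈φ⌉) (-(⌈φ⌉ - 1)) (by ring)).app Y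
    have h1 : f⟦(-(⌈φ⌉ - 1) : ℤ)⟧' ≫ e.hom = 0 :=
      hH.hom_neg _ _ (⌈ψ⌉ - ⌈φ⌉) (by omega) hX1.1 hY1.1 _
    exact (Preadditive.IsIso.comp_right_eq_zero _ _).1 h1
  · rw [heq] at hY1 hY2
    refine Wss_hom_zero hH hW hX1 hY1 ?_ _
    rw [hX2, hY2]
    refine mul_lt_mul_of_pos_left ?_ Real.pi_pos
    linarith

end MP_14a437_ag
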