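import Pool.Agent.Work.MP_14a437_ag.G.QAll
import Pool.Agent.Work.MP_14a437_ag.G.QHom
import Pool.Agent.Work.MP_14a437_ag.G.QBi

/-!
# G/Slic  (M) : the stability condition defined by a heart and a stability function

The slicing is `QP (S.heart 0) W`: `QP_iso`, `QP_zero`, `QP_biprod`, `QP_shift`, `QP_hom`, `exists_hn_QP`
(`hH = heart_isAdm S 0`).  `compat`: for `E ∈ QP φ` nonzero, `n = ⌈φ⌉ - 1`, `E' = E⟦-n⟧` is nonzero in `H`,
`W(E') = ‖W(E')‖ exp(π i (φ-n))` (`UH_eq_norm`), `‖W(E')‖ > 0` and `cl E = (-1)^n cl E'` (`cl_shiftn`),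
`exp(π i φ) = (-1)^n exp(π i (φ-n))`.
Heart: if all HN phases of `E` are in `(0,1]` then the factors are in `H` (`QP_iff`) and `H` is closed under
extensions (`hH.ext`, `hH.zero`, induction on `HN`); conversely `hn_all` with `a = 0`, `n = 1`.
-/

open CategoryTheory CategoryTheory.Limits CategoryTheory.Pretriangulated

universe v u

namespace MP_14a437_ag

variable {C : Type u} [Category.{v} C] [Preadditive C] [HasZeroObject C] [HasShift C ℤ]
  [∀ n : ℤ, (shiftFunctor C n).Additive] [Pretriangulated C] [IsTriangulated C]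

private theorem slic_exp (n : ℤ) :
    Complex.exp (Real.pi * n * Complex.I) = (((n.negOnePow : ℤˣ) : ℤ) : ℂ) := by
  have h2 : ∀ k : ℤ, Complex.exp (k * (2 * Real.pi * Complex.I)) = 1 := fun k =>
    Complex.exp_int_mul_two_pi_mul_I k
  rcases Int.even_or_odd' n with ⟨k, hk | hk⟩
  · rw [Int.negOnePow_even n ⟨k, by omega⟩, hk]
    have e : (Real.pi : ℂ) * ((2 * k : ℤ) : ℂ) * Complex.I = k * (2 * Real.pi * Complex.I) := by
      push_cast
      ring
    rw [e, h2]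
    simp
  · rw [Int.negOnePow_odd n ⟨k, hk⟩, hk]
    have e : (Real.pi : ℂ) * ((2 * k + 1 : ℤ) : ℂ) * Complex.I =
        k * (2 * Real.pi * Complex.I) + Real.pi * Complex.I := by
      push_cast
      ring
    rw [e, Complex.exp_add, h2, Complex.exp_pi_mul_I]
    simp

private theorem slic_compat {H : ObjectProperty C} {W : K0 C →+ ℂ} (hW : IsStabFun H W)
    (φ : ℝ) (E : C) (hE : QP H W φ E) (h0 : ¬ IsZero E) :
    ∃ m : ℝ, 0 < m ∧ W (cl E) = m * Complex.exp (Real.pi * φ * Complex.I) := by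
  obtain ⟨hE1, hE2⟩ := hE
  have hE3 := hE2 h0
  obtain ⟨n, hn⟩ : ∃ n : ℤ, n = ⌈φ⌉ - 1 := ⟨_, rfl⟩
  have hn' : (⌈φ⌉ : ℝ) - 1 = (n : ℝ) := by rw [hn]; push_cast; ring
  rw [hn'] at hE3
  rw [← hn] at hE1 hE3
  have h1 : ¬ IsZero (E⟦(-n : ℤ)⟧) := fun h => h0 ((isZero_shift_iff E (-n)).1 h)
  have h2 := UH_ne_zero (hW.pos _ hE1.1 h1)
  refine ⟨‖W (cl (E⟦(-n : ℤ)⟧))‖, norm_pos_iff.2 h2, ?_⟩
  have h3 := UH_eq_norm hE3
  have h4 : W (cl (E⟦(-n : ℤ)⟧)) = (((n.negOnePow : ℤˣ) : ℤ) : ℂ) * W (cl E) := by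
    rw [cl_shiftn, map_zsmul, Int.negOnePow_neg, zsmul_eq_mul]
  have h5 : (((n.negOnePow : ℤˣ) : ℤ) : ℂ) * (((n.negOnePow : ℤˣ) : ℤ) : ℂ) = 1 := by
    rw [← Int.cast_mul, ← Units.val_mul, Int.units_mul_self]
    simp
  have h6 : W (cl E) = (((n.negOnePow : ℤˣ) : ℤ) : ℂ) * W (cl (E⟦(-n : ℤ)⟧)) := by
    rw [h4, ← mul_assoc, h5, one_mul]
  have h7 : Complex.exp (Real.pi * φ * Complex.I) =
      Complex.exp (Real.pi * ((φ - n : ℝ) : ℂ) * Complex.I) *
        (((n.negOnePow : ℤˣ) : ℤ) : ℂ) := by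
    rw [← slic_exp, ← Complex.exp_add]
    congr 1
    push_cast
    ring
  rw [h7, h6]
  nth_rw 1 [h3]
  ring

theorem exists_preStab (S : Slicing C) {W : K0 C →+ ℂ} (hW : IsStabFun (S.heart 0) W) :
    ∃ τ : PreStab C, τ.Z = W ∧ (∀ φ, τ.P φ = QP (S.heart 0) W φ) ∧
      ∀ E : C, τ.heart 0 E ↔ S.heart 0 E := by
  have hH := heart_isAdm S 0
  refine ⟨{ P := QP (S.heart 0) W
            iso := fun φ => ⟨fun e h => QP_iso hH e h⟩
            zero := fun φ X hX => QP_zero hH W φ hX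
            biprod := fun φ X Y hX hY => QP_biprod hH hW hX hY
            shift := fun φ X => QP_shift hH φ X
            hom := fun φ ψ X Y h hX hY f => QP_hom hH hW h hX hY f
            exists_hn := fun E => exists_hn_QP S hW E
            Z := W
            compat := fun φ E hE h0 => slic_compat hW φ E hE h0 }, rfl, fun φ => rfl, ?_⟩
  intro E
  constructor
  · rintro ⟨l, hl, hlI⟩
    change HN (QP (S.heart 0) W) E l at hl
    induction hl with
    | zero h => exact hH.zero _ h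
    | cons f g h hT hE' hA hA0 hlt ih =>
      have h1 := hlI _ List.mem_cons_self
      rw [Set.mem_Ioc] at h1
      have h2 : S.heart 0 _ := ((QP_iff hH h1.1 (by linarith [h1.2]) _).1 hA).1.1
      exact hH.ext f g h hT (ih fun φ hφ => hlI φ (List.mem_cons_of_mem _ hφ)) h2
  · intro hE
    obtain ⟨l, hl, hl1⟩ := hn_all S hW 0 1 E (PS_mono S (fun φ hφ => by
      rw [Set.mem_Ioc] at hφ ⊢
      push_cast
      exact hφ) hE)
    refine ⟨l, hl, fun φ hφ => ?_⟩
    have h1 := hl1 φ hφ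
    rw [Set.mem_Ioc]
    push_cast at h1
    exact h1

end MP_14a437_ag
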