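import Pool.Agent.Work.MP_14a437_ag.S.Ext

/-!
# G/Uniq  (M) : HN phases of an object of `P(I)` lie in `I`

`hn_mem_of_PS`: as in `PS_ext` (file S/Ext): let `φ ∈ m`, `φ ∉ I`, so `I ⊆ Iio φ` or `I ⊆ Ioi φ`.
First case: `exists_trunc` for `hE` with `L = Iio φ`: `E₁ → E → E₂`, `φ` is a phase of `E₁`, so `E₁` is not
zero; `Hom(E₁, E) = 0` (`hn_hom_zero`), so `E₁ ⟶ E` is zero, `𝟙 (E₁⟦1⟧)` factors through
`E₂ ⟶ E₁⟦1⟧`, `Hom(E₁⟦1⟧, E₂) = 0`, contradiction.  Second case: `L = Iic φ`, dual.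
`last_factor`: from the definition of `HN` (`cases`), the map `E ⟶ A` is nonzero: otherwise `𝟙 A` factors
through `E'⟦1⟧` (`Triangle.yoneda_exact₃`) and `Hom(E'⟦1⟧, A) = 0` (phases `> φ + 1`).
`first_factor`: `exists_trunc` with `L = Iio b`, `b` the last (largest) member of `l`: `A → E → B`, all
phases of `A` are `b`, so `A ∈ P b` (`PS_singleton`), `A ⟶ E` is nonzero (as in the first case above).
-/

open CategoryTheory CategoryTheory.Limits CategoryTheory.Pretriangulated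

universe v u

namespace MP_14a437_ag

variable {C : Type u} [Category.{v} C] [Preadditive C] [HasZeroObject C] [HasShift C ℤ]
  [∀ n : ℤ, (shiftFunctor C n).Additive] [Pretriangulated C] [IsTriangulated C]

private theorem uniq_sub (S : Slicing C) {E A₁ B₁ : C} {l₁ l₂ : List ℝ} {φ : ℝ} {f₁ : A₁ ⟶ E}
    {g₁ : E ⟶ B₁} {h₁ : B₁ ⟶ A₁⟦(1 : ℤ)⟧} (hT₁ : Triangle.mk f₁ g₁ h₁ ∈ distTriang C)
    (hA₁ : HN S.P A₁ l₁) (hB₁ : HN S.P B₁ l₂) (hge : ∀ ψ ∈ l₁, φ ≤ ψ) (h2 : ∀ ψ ∈ l₂, ψ < φ)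
    (hf : f₁ = 0) : l₁ = [] := by
  obtain ⟨u, hu⟩ := Triangle.coyoneda_exact₁ _ hT₁ (𝟙 (A₁⟦(1 : ℤ)⟧)) (by
    change 𝟙 _ ≫ (shiftFunctor C (1 : ℤ)).map f₁ = 0
    rw [hf, Functor.map_zero, comp_zero])
  have hu0 : u = 0 := hn_hom_zero S (hn_shiftn S hA₁ 1) hB₁ (by
    intro a ha b hb
    obtain ⟨a', ha', rfl⟩ := List.mem_map.1 ha
    have k1 := hge a' ha'
    have k2 : b < φ := h2 b hb
    push_cast
    linarith) _
  apply hn_nil_of_isZero S hA₁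
  rw [← isZero_shift_iff A₁ 1, IsZero.iff_id_eq_zero, hu, hu0]
  exact zero_comp

private theorem uniq_quot (S : Slicing C) {E A₁ B₁ : C} {l₁ l₂ : List ℝ} {φ : ℝ} {f₁ : A₁ ⟶ E}
    {g₁ : E ⟶ B₁} {h₁ : B₁ ⟶ A₁⟦(1 : ℤ)⟧} (hT₁ : Triangle.mk f₁ g₁ h₁ ∈ distTriang C)
    (hA₁ : HN S.P A₁ l₁) (hB₁ : HN S.P B₁ l₂) (hgt1 : ∀ ψ ∈ l₁, φ < ψ) (hle2 : ∀ ψ ∈ l₂, ψ ≤ φ)
    (hg : g₁ = 0) : IsZero B₁ := by
  obtain ⟨u, hu⟩ := Triangle.yoneda_exact₃ _ hT₁ (𝟙 B₁) (by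
    change g₁ ≫ 𝟙 _ = 0
    rw [hg, zero_comp])
  have hu0 : u = 0 := hn_hom_zero S (hn_shiftn S hA₁ 1) hB₁ (by
    intro a ha b hb
    obtain ⟨a', ha', rfl⟩ := List.mem_map.1 ha
    have k1 := hgt1 a' ha'
    have k2 := hle2 b hb
    push_cast
    linarith) _
  rw [IsZero.iff_id_eq_zero, hu, hu0]
  exact comp_zero

theorem hn_mem_of_PS (S : Slicing C) {I : Set ℝ} (hI : I.OrdConnected) {E : C} {m : List ℝ}
    (hE : HN S.P E m) (h : S.PS I E) : ∀ φ ∈ m, φ ∈ I := by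
  obtain ⟨lE, hlE, hEI⟩ := h
  intro φ hφ
  by_contra hφI
  have hcase : (∀ x ∈ I, x < φ) ∨ (∀ x ∈ I, φ < x) := by
    by_contra hcon
    push Not at hcon
    obtain ⟨⟨a, haI, ha⟩, ⟨b, hbI, hb⟩⟩ := hcon
    exact hφI (hI.out hbI haI ⟨hb, ha⟩)
  rcases hcase with hlt | hgt
  · obtain ⟨A₁, B₁, f₁, g₁, h₁, l₁, l₂, hT₁, hA₁, hB₁, rfl, h1, h2⟩ :=
      exists_trunc (isLowerSet_Iio φ) hE
    have hφ1 : φ ∈ l₁ := by
      rcases List.mem_append.1 hφ with h' | h'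
      · exact absurd (h2 φ h') (lt_irrefl φ)
      · exact h'
    have hge : ∀ ψ ∈ l₁, φ ≤ ψ := fun ψ hψ => not_lt.1 (h1 ψ hψ)
    have hf : f₁ = 0 := hn_hom_zero S hA₁ hlE
      (fun a ha b hb => lt_of_lt_of_le (hlt b (hEI b hb)) (hge a ha)) _
    rw [uniq_sub S hT₁ hA₁ hB₁ hge h2 hf] at hφ1
    simp at hφ1
  · obtain ⟨A₁, B₁, f₁, g₁, h₁, l₁, l₂, hT₁, hA₁, hB₁, rfl, h1, h2⟩ :=
      exists_trunc (isLowerSet_Iic φ) hE
    have hφ2 : φ ∈ l₂ := by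
      rcases List.mem_append.1 hφ with h' | h'
      · exact h'
      · exact absurd (le_refl φ) (h1 φ h')
    have hgt1 : ∀ ψ ∈ l₁, φ < ψ := fun ψ hψ => not_le.1 (h1 ψ hψ)
    have hle2 : ∀ ψ ∈ l₂, ψ ≤ φ := fun ψ hψ => h2 ψ hψ
    have hg : g₁ = 0 := hn_hom_zero S hlE hB₁
      (fun a ha b hb => lt_of_le_of_lt (hle2 b hb) (hgt a (hEI a ha))) _
    rw [hn_nil_of_isZero S hB₁ (uniq_quot S hT₁ hA₁ hB₁ hgt1 hle2 hg)] at hφ2
    simp at hφ2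

theorem last_factor (S : Slicing C) {E : C} {l : List ℝ} (hl : l ≠ []) (hE : HN S.P E l) :
    ∃ (A : C) (g : E ⟶ A), S.P (l.head hl) A ∧ g ≠ 0 := by
  cases hE with
  | zero h => exact absurd rfl hl
  | @cons E' E A l φ f g h hT hE' hA hA0 hlt =>
    refine ⟨A, g, hA, fun hg => hA0 ?_⟩
    exact uniq_quot S (φ := φ) hT hE' (hn_single S hA hA0) hlt (by
      intro ψ hψ
      have : ψ = φ := by simpa using hψ
      exact this.le) hg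

theorem first_factor (S : Slicing C) {E : C} {l : List ℝ} (hl : l ≠ []) (hE : HN S.P E l) :
    ∃ (A : C) (f : A ⟶ E), S.P (l.getLast hl) A ∧ f ≠ 0 := by
  obtain ⟨b, hb⟩ : ∃ b, b = l.getLast hl := ⟨_, rfl⟩
  rw [← hb]
  have hbl : b ∈ l := by rw [hb]; exact List.getLast_mem hl
  have hs := hn_sorted hE
  have hle : ∀ ψ ∈ l, ψ ≤ b := by
    intro ψ hψ
    rw [← List.dropLast_append_getLast hl] at hs hψ
    rw [← hb] at hs hψ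
    rcases List.mem_append.1 hψ with h1 | h1
    · exact ((List.pairwise_append.1 hs).2.2 ψ h1 b (by simp)).le
    · have : ψ = b := by simpa using h1
      exact this.le
  obtain ⟨A₁, B₁, f₁, g₁, h₁, l₁, l₂, hT₁, hA₁, hB₁, hll, h1, h2⟩ :=
    exists_trunc (isLowerSet_Iio b) hE
  have hge : ∀ ψ ∈ l₁, b ≤ ψ := fun ψ hψ => not_lt.1 (h1 ψ hψ)
  have hb1 : b ∈ l₁ := by
    rw [hll] at hbl
    rcases List.mem_append.1 hbl with h' | h'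
    · exact absurd (h2 b h') (lt_irrefl b)
    · exact h'
  refine ⟨A₁, f₁, ?_, fun hf => ?_⟩
  · rw [← PS_singleton]
    refine ⟨l₁, hA₁, fun ψ hψ => ?_⟩
    exact le_antisymm (hle ψ (by rw [hll]; exact List.mem_append_right _ hψ)) (hge ψ hψ)
  · rw [uniq_sub S hT₁ hA₁ hB₁ hge h2 hf] at hb1
    simp at hb1

end MP_14a437_ag
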